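import Mathlib
import Pool.Agent.Lib_helper28.ST.L.SH5
import Pool.Agent.Lib_helper25.PR.PA
import Pool.Agent.Lib_helper25.PR.PB

/-!
# Small order of the largest character (`m = 4, 5, 6`): levels and removal of the outer part
-/

set_option autoImplicit false

namespace Pool.Agent.SM

open Finset Pool.Agent.Lib_helper13.PL Pool.Agent.POS Pool.Agent.ST

variable {G : Type*} [AddCommGroup G]

/-- the finite facts about `ZMod m` needed for the levels -/
def Sml (m : ℕ) : Prop :=
  (∀ a : ZMod m, 3 * |a.valMinAbs| < (m : ℤ) → a = 0 ∨ a = 1 ∨ a = -1) ∧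
    (1 : ZMod m).valMinAbs = 1 ∧ (-1 : ZMod m).valMinAbs = -1

theorem sml4 : Sml 4 := by unfold Sml; decide
theorem sml5 : Sml 5 := by unfold Sml; decide
theorem sml6 : Sml 6 := by unfold Sml; decide

theorem Sml.one_ne {m : ℕ} (h : Sml m) : (1 : ZMod m) ≠ 0 := by
  intro h0
  have h1 := h.2.1
  rw [h0, ZMod.valMinAbs_zero] at h1
  omega

theorem Sml.neg_ne {m : ℕ} (h : Sml m) : (-1 : ZMod m) ≠ 0 := by
  intro h0
  have h1 := h.2.2
  rw [h0, ZMod.valMinAbs_zero] at h1
  omega

theorem Sml.ne {m : ℕ} (h : Sml m) : (1 : ZMod m) ≠ -1 := by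
  intro h0
  have h1 := h.2.1
  rw [h0, h.2.2] at h1
  omega

/-- the three levels -/
theorem card_three [DecidableEq G] {m : ℕ} (hs : Sml m) (chi : G →+ ZMod m) (B : Finset G)
    (hB : NoWrap chi B) :
    B.card = (lev chi B 0).card + (lev chi B 1).card + (lev chi B (-1)).card := by
  have h1 : B = (lev chi B 0 ∪ lev chi B 1) ∪ lev chi B (-1) := by
    ext x
    simp only [lev, mem_union, mem_filter]
    constructor
    · intro hx
      rcases hs.1 _ (hB x hx) with h | h | h <;> simp [hx, h]
    · rintro ((h | h) | h) <;> exact h.1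
  have d1 : Disjoint (lev chi B 0) (lev chi B 1) := by
    rw [disjoint_left]
    intro x hx hx'
    simp only [lev, mem_filter] at hx hx'
    exact hs.one_ne (hx'.2.symm.trans hx.2)
  have d2 : Disjoint (lev chi B 0 ∪ lev chi B 1) (lev chi B (-1)) := by
    rw [disjoint_left]
    intro x hx hx'
    simp only [lev, mem_filter, mem_union] at hx hx'
    rcases hx with hx | hx
    · exact hs.neg_ne (hx'.2.symm.trans hx.2)
    · exact hs.ne (hx.2.symm.trans hx'.2)
  have h2 := card_union_of_disjoint d2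
  rw [card_union_of_disjoint d1] at h2
  rw [← h2, ← h1]

/-- the peeled inequality with the three levels -/
theorem peel_three [DecidableEq G] {m : ℕ} [NeZero m] (hs : Sml m) (chi : G →+ ZMod m)
    (B : Finset G) (hB : NoWrap chi B) :
    GL.FF B ≤ GL.FF (lev chi B 0)
      - 6 * (lev chi B 1).card * ((lev chi B 0).card - (lev chi B 1).card)
      - 6 * (lev chi B (-1)).card * ((lev chi B 0).card - (lev chi B (-1)).card)
      - ((lev chi B 1).card - (lev chi B (-1)).card : ℤ) ^ 2 := by
  have h := pl_star chi B hB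
  have hD : DD chi B = ((lev chi B 1).card : ℤ) - (lev chi B (-1)).card := by
    unfold DD lev
    congr 2
    · congr 1
      refine filter_congr fun x hx => ?_
      rcases hs.1 _ (hB x hx) with h0 | h0 | h0 <;> rw [h0]
      · simp [hs.one_ne.symm]
      · simp [hs.2.1]
      · rw [hs.2.2]
        constructor
        · intro h1; omega
        · intro h1; exact absurd h1.symm hs.ne
    · congr 1
      refine filter_congr fun x hx => ?_
      rcases hs.1 _ (hB x hx) with h0 | h0 | h0 <;> rw [h0]
      · simp [hs.neg_ne.symm]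
      · rw [hs.2.1]
        constructor
        · intro h1; omega
        · intro h1; exact absurd h1 hs.ne
      · simp [hs.2.2]
  have hU : ∑ u ∈ (B.image chi).erase 0, cost (lev chi B u) (lev chi B 0) =
      cost (lev chi B 1) (lev chi B 0) + cost (lev chi B (-1)) (lev chi B 0) := by
    rw [← sum_pair (f := fun u => cost (lev chi B u) (lev chi B 0)) hs.ne]
    refine sum_subset ?_ ?_
    · intro u hu
      rw [mem_erase, mem_image] at hu
      obtain ⟨h0, x, hx, rfl⟩ := hu
      rcases hs.1 _ (hB x hx) with h1 | h1 | h1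
      · exact absurd h1 h0
      · rw [h1]; simp
      · rw [h1]; simp
    · intro u hu hu'
      have h0 : lev chi B u = ∅ := by
        rw [eq_empty_iff_forall_notMem]
        intro x hx
        simp only [lev, mem_filter] at hx
        apply hu'
        rw [mem_erase]
        refine ⟨?_, ?_⟩
        · rw [mem_insert, mem_singleton] at hu
          rcases hu with rfl | rfl
          · exact hs.one_ne
          · exact hs.neg_ne
        · rw [← hx.2]; exact mem_image_of_mem _ hx.1
      rw [h0]
      simp [cost, dlt]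
  rw [hU, hD] at h
  have h1 := cost_small (lev chi B 1) (lev chi B 0)
  have h2 := cost_small (lev chi B (-1)) (lev chi B 0)
  linarith

/-- `F(B') ≤ F(B'_0) - 6 c T + 5 T²` -/
theorem peel_T [DecidableEq G] {m : ℕ} [NeZero m] (hs : Sml m) (chi : G →+ ZMod m)
    (B : Finset G) (hB : NoWrap chi B) (c T : ℤ) (hc : c = (lev chi B 0).card)
    (hT : (B.card : ℤ) = c + T) :
    GL.FF B ≤ GL.FF (lev chi B 0) - 6 * c * T + 5 * T ^ 2 := by
  have h := peel_three hs chi B hB
  have h1 := card_three hs chi B hB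
  have h2 : T = (lev chi B 1).card + (lev chi B (-1)).card := by
    have : (B.card : ℤ) = (lev chi B 0).card + (lev chi B 1).card + (lev chi B (-1)).card := by
      exact_mod_cast h1
    linarith
  rw [h2, hc]
  have h3 : (0 : ℤ) ≤ (lev chi B 1).card * (lev chi B (-1)).card := by positivity
  nlinarith

/-- the number of triples of an element `x` with the set -/
theorem key_D [DecidableEq G] (B : Finset G) (x : G) :
    3 * (B.card : ℤ) - (2 * dlt B x + dlt' B x) =
      2 * ((B.filter (fun z => z + x ∈ B)).card : ℤ) +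
        ((B.filter (fun y => x - y ∈ B)).card : ℤ) := by
  have h1 : (B.filter (fun z => z + x ∈ B)).card + (B.filter (fun z => z + x ∉ B)).card
      = B.card := card_filter_add_card_filter_not _
  have h2 : (B.filter (fun y => x - y ∈ B)).card + (B.filter (fun y => x - y ∉ B)).card
      = B.card := card_filter_add_card_filter_not _
  unfold dlt dlt'
  have h1' : (((B.filter (fun z => z + x ∈ B)).card : ℕ) : ℤ) + (B.filter (fun z => z + x ∉ B)).card
      = B.card := by exact_mod_cast h1
  have h2' : (((B.filter (fun y => x - y ∈ B)).card : ℕ) : ℤ) + (B.filter (fun y => x - y ∉ B)).card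
      = B.card := by exact_mod_cast h2
  linarith

/-- a translate of a part of the level `u` inside the level `v` -/
theorem card_tr [DecidableEq G] {m : ℕ} (chi : G →+ ZMod m) (B : Finset G) (x : G) (u v : ZMod m)
    (h : v = u + chi x) :
    ((lev chi B u).filter (fun z => z + x ∈ B)).card ≤ (lev chi B v).card := by
  refine card_le_card_of_injOn (fun z => z + x) ?_ (fun a _ b _ hab => add_right_cancel hab)
  intro z hz
  simp only [coe_filter, Set.mem_ofPred_eq, lev, mem_filter] at hz ⊢
  exact ⟨hz.2, by rw [map_add, hz.1.2, h]⟩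

theorem dec5a : ∀ a x : ZMod 5, 3 * |a.valMinAbs| < 5 → 3 * |(a + x).valMinAbs| < 5 →
    ¬ 3 * |x.valMinAbs| < 5 → (x = 2 ∧ a = -1) ∨ (x = -2 ∧ a = 1) := by decide

theorem dec5b : ∀ a x : ZMod 5, 3 * |a.valMinAbs| < 5 → 3 * |(x - a).valMinAbs| < 5 →
    ¬ 3 * |x.valMinAbs| < 5 → (x = 2 ∧ a = 1) ∨ (x = -2 ∧ a = -1) := by decide

theorem dec6a : ∀ a x : ZMod 6, 3 * |a.valMinAbs| < 6 → 3 * |(a + x).valMinAbs| < 6 →
    ¬ 3 * |x.valMinAbs| < 6 → (x = 2 ∧ a = -1) ∨ (x = -2 ∧ a = 1) := by decide

theorem dec6b : ∀ a x : ZMod 6, 3 * |a.valMinAbs| < 6 → 3 * |(x - a).valMinAbs| < 6 →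
    ¬ 3 * |x.valMinAbs| < 6 → (x = 2 ∧ a = 1) ∨ (x = -2 ∧ a = -1) := by decide

theorem dec4a : ∀ a x : ZMod 4, 3 * |a.valMinAbs| < 4 → 3 * |(a + x).valMinAbs| < 4 →
    ¬ 3 * |x.valMinAbs| < 4 → x = 2 ∧ (a = 1 ∨ a = -1) := by decide

theorem dec4b : ∀ a x : ZMod 4, 3 * |a.valMinAbs| < 4 → 3 * |(x - a).valMinAbs| < 4 →
    ¬ 3 * |x.valMinAbs| < 4 → x = 2 ∧ (a = 1 ∨ a = -1) := by decide

/-- the bound for `m = 5, 6` -/
theorem D56 [DecidableEq G] {m : ℕ} (chi : G →+ ZMod m) (B : Finset G) (hB : NoWrap chi B)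
    (h11 : (1 : ZMod m) = -1 + 2) (h12 : (-1 : ZMod m) = 1 + -2)
    (h22 : (2 : ZMod m) ≠ -2)
    (ha : ∀ a x : ZMod m, 3 * |a.valMinAbs| < (m : ℤ) → 3 * |(a + x).valMinAbs| < (m : ℤ) →
      ¬ 3 * |x.valMinAbs| < (m : ℤ) → (x = 2 ∧ a = -1) ∨ (x = -2 ∧ a = 1))
    (hb : ∀ a x : ZMod m, 3 * |a.valMinAbs| < (m : ℤ) → 3 * |(x - a).valMinAbs| < (m : ℤ) →
      ¬ 3 * |x.valMinAbs| < (m : ℤ) → (x = 2 ∧ a = 1) ∨ (x = -2 ∧ a = -1))
    (x : G) (hx : ¬ 3 * |(chi x).valMinAbs| < (m : ℤ)) :
    2 * (3 * (B.card : ℤ) - (2 * dlt B x + dlt' B x)) ≤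
      3 * ((lev chi B 1).card + (lev chi B (-1)).card) := by
  rw [key_D]
  have f1 : ∀ z ∈ B, z + x ∈ B →
      (chi x = 2 ∧ chi z = -1) ∨ (chi x = -2 ∧ chi z = 1) := by
    intro z hz hzx
    have h1 := hB _ hzx
    rw [map_add] at h1
    exact ha _ _ (hB z hz) h1 hx
  have f2 : ∀ y ∈ B, x - y ∈ B →
      (chi x = 2 ∧ chi y = 1) ∨ (chi x = -2 ∧ chi y = -1) := by
    intro z hz hzx
    have h1 := hB _ hzx
    rw [map_sub] at h1
    exact hb _ _ (hB z hz) h1 hx
  have k1 : ∀ u : ZMod m, (∀ z ∈ B, z + x ∈ B → chi z = u) →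
      (B.filter (fun z => z + x ∈ B)) = (lev chi B u).filter (fun z => z + x ∈ B) := by
    intro u hu
    ext z
    simp only [lev, mem_filter]
    constructor
    · rintro ⟨h1, h2⟩; exact ⟨⟨h1, hu z h1 h2⟩, h2⟩
    · rintro ⟨⟨h1, _⟩, h2⟩; exact ⟨h1, h2⟩
  have k2 : ∀ u : ZMod m, (∀ y ∈ B, x - y ∈ B → chi y = u) →
      (B.filter (fun y => x - y ∈ B)).card ≤ (lev chi B u).card := by
    intro u hu
    apply card_le_card
    intro y hy
    rw [mem_filter] at hy
    rw [lev, mem_filter]
    exact ⟨hy.1, hu y hy.1 hy.2⟩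
  by_cases h2 : chi x = 2
  · have e1 := k1 (-1) (fun z hz hzx => by
      rcases f1 z hz hzx with h | h
      · exact h.2
      · exact absurd (h2.symm.trans h.1) h22)
    have e2 := k2 1 (fun z hz hzx => by
      rcases f2 z hz hzx with h | h
      · exact h.2
      · exact absurd (h2.symm.trans h.1) h22)
    rw [e1]
    have e3 := card_tr chi B x (-1) 1 (by rw [h2]; exact h11)
    have e4 : ((lev chi B (-1)).filter (fun z => z + x ∈ B)).card ≤ (lev chi B (-1)).card :=
      card_le_card (filter_subset _ _)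
    push_cast
    omega
  · by_cases h3 : chi x = -2
    · have e1 := k1 1 (fun z hz hzx => by
        rcases f1 z hz hzx with h | h
        · exact absurd h.1 h2
        · exact h.2)
      have e2 := k2 (-1) (fun z hz hzx => by
        rcases f2 z hz hzx with h | h
        · exact absurd h.1 h2
        · exact h.2)
      rw [e1]
      have e3 := card_tr chi B x 1 (-1) (by rw [h3]; exact h12)
      have e4 : ((lev chi B 1).filter (fun z => z + x ∈ B)).card ≤ (lev chi B 1).card :=
        card_le_card (filter_subset _ _)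
      push_cast
      omega
    · have e1 : B.filter (fun z => z + x ∈ B) = ∅ := by
        rw [filter_eq_empty_iff]
        intro z hz hzx
        rcases f1 z hz hzx with h | h
        · exact h2 h.1
        · exact h3 h.1
      have e2 : B.filter (fun y => x - y ∈ B) = ∅ := by
        rw [filter_eq_empty_iff]
        intro z hz hzx
        rcases f2 z hz hzx with h | h
        · exact h2 h.1
        · exact h3 h.1
      rw [e1, e2]
      simp only [card_empty]
      push_cast
      omega

/-- the bound for `m = 4` -/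
theorem D4 [DecidableEq G] (chi : G →+ ZMod 4) (B : Finset G) (hB : NoWrap chi B)
    (x : G) (hx : ¬ 3 * |(chi x).valMinAbs| < 4) :
    3 * (B.card : ℤ) - (2 * dlt B x + dlt' B x) ≤
      3 * ((lev chi B 1).card + (lev chi B (-1)).card) := by
  rw [key_D]
  have f1 : ∀ z ∈ B, z + x ∈ B → chi x = 2 ∧ (chi z = 1 ∨ chi z = -1) := by
    intro z hz hzx
    have h1 := hB _ hzx
    rw [map_add] at h1
    exact dec4a _ _ (hB z hz) h1 hx
  have f2 : ∀ y ∈ B, x - y ∈ B → chi x = 2 ∧ (chi y = 1 ∨ chi y = -1) := by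
    intro z hz hzx
    have h1 := hB _ hzx
    rw [map_sub] at h1
    exact dec4b _ _ (hB z hz) h1 hx
  have hdis : Disjoint (lev chi B 1) (lev chi B (-1)) := by
    rw [disjoint_left]
    intro z hz hz'
    simp only [lev, mem_filter] at hz hz'
    exact sml4.ne (hz.2.symm.trans hz'.2)
  have e2 : (B.filter (fun y => x - y ∈ B)).card ≤ (lev chi B 1).card + (lev chi B (-1)).card := by
    rw [← card_union_of_disjoint hdis]
    apply card_le_card
    intro y hy
    rw [mem_filter] at hy
    simp only [lev, mem_union, mem_filter]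
    rcases (f2 y hy.1 hy.2).2 with h | h
    · left; exact ⟨hy.1, h⟩
    · right; exact ⟨hy.1, h⟩
  have e1 : (B.filter (fun z => z + x ∈ B)).card ≤
      ((lev chi B 1).filter (fun z => z + x ∈ B)).card +
        ((lev chi B (-1)).filter (fun z => z + x ∈ B)).card := by
    refine (card_le_card ?_).trans (card_union_le _ _)
    intro z hz
    rw [mem_filter] at hz
    simp only [lev, mem_union, mem_filter]
    rcases (f1 z hz.1 hz.2).2 with h | h
    · left; exact ⟨⟨hz.1, h⟩, hz.2⟩
    · right; exact ⟨⟨hz.1, h⟩, hz.2⟩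
  by_cases h2 : chi x = 2
  · have e3 := card_tr chi B x (-1) 1 (by rw [h2]; decide)
    have e4 := card_tr chi B x 1 (-1) (by rw [h2]; decide)
    have e5 : ((lev chi B 1).filter (fun z => z + x ∈ B)).card ≤ (lev chi B 1).card :=
      card_le_card (filter_subset _ _)
    have e6 : ((lev chi B (-1)).filter (fun z => z + x ∈ B)).card ≤ (lev chi B (-1)).card :=
      card_le_card (filter_subset _ _)
    push_cast
    omega
  · have e3 : B.filter (fun z => z + x ∈ B) = ∅ := by
      rw [filter_eq_empty_iff]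
      intro z hz hzx
      exact h2 (f1 z hz hzx).1
    rw [e3]
    simp only [card_empty]
    push_cast
    omega

/-- the inner part -/
def inn {m : ℕ} (chi : G →+ ZMod m) (B : Finset G) : Finset G :=
  B.filter (fun x => 3 * |(chi x).valMinAbs| < (m : ℤ))

/-- the outer part -/
def outr {m : ℕ} (chi : G →+ ZMod m) (B : Finset G) : Finset G :=
  B.filter (fun x => ¬ 3 * |(chi x).valMinAbs| < (m : ℤ))

theorem inn_noWrap {m : ℕ} (chi : G →+ ZMod m) (B : Finset G) : NoWrap chi (inn chi B) :=
  fun _ hx => (mem_filter.1 hx).2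

theorem inn_card {m : ℕ} (chi : G →+ ZMod m) (B : Finset G) :
    (inn chi B).card + (outr chi B).card = B.card := card_filter_add_card_filter_not _

theorem inn_union [DecidableEq G] {m : ℕ} (chi : G →+ ZMod m) (B : Finset G) :
    inn chi B ∪ outr chi B = B := filter_union_filter_not_eq _ _

theorem inn_disj {m : ℕ} (chi : G →+ ZMod m) (B : Finset G) :
    Disjoint (inn chi B) (outr chi B) := disjoint_filter_filter_not _ _ _

theorem lev_inn_zero {m : ℕ} (hm : 0 < m) (chi : G →+ ZMod m) (B : Finset G) :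
    lev chi (inn chi B) 0 = lev chi B 0 := by
  ext x
  simp only [lev, inn, mem_filter]
  constructor
  · rintro ⟨⟨h1, _⟩, h2⟩; exact ⟨h1, h2⟩
  · rintro ⟨h1, h2⟩
    refine ⟨⟨h1, ?_⟩, h2⟩
    rw [h2, ZMod.valMinAbs_zero]
    simpa using hm

/-- removal for `m = 4` -/
theorem rem4 [Fintype G] [DecidableEq G] (chi : G →+ ZMod 4) (B : Finset G) (c T w : ℤ)
    (hc : c = (lev chi B 0).card) (hw : w = (outr chi B).card) (hT : (B.card : ℤ) = c + T + w) :
    GL.FF B ≤ GL.FF (inn chi B) + 6 * w * (T - c) + 9 * w ^ 2 := by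
  have hN := inn_noWrap chi B
  have h3 := card_three sml4 chi _ hN
  have hl := lev_inn_zero (by norm_num) chi B
  have hcd := inn_card chi B
  rw [hl] at h3
  have hT2 : T = ((lev chi (inn chi B) 1).card : ℤ) + (lev chi (inn chi B) (-1)).card := by
    have h4 : ((inn chi B).card : ℤ) = (lev chi B 0).card + (lev chi (inn chi B) 1).card +
        (lev chi (inn chi B) (-1)).card := by exact_mod_cast h3
    have h5 : ((inn chi B).card : ℤ) + (outr chi B).card = B.card := by exact_mod_cast hcd
    linarith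
  have h := remove_outer (inn chi B) (outr chi B) (inn_disj chi B) (3 * T) (by
    intro x hx
    rw [hT2]
    exact D4 chi _ hN x (mem_filter.1 hx).2)
  rw [inn_union, ← hw] at h
  have h6 : ((inn chi B).card : ℤ) = c + T := by
    have h5 : ((inn chi B).card : ℤ) + (outr chi B).card = B.card := by exact_mod_cast hcd
    linarith
  rw [h6] at h
  linarith

/-- removal for `m = 5, 6`, general form -/
theorem rem56 [Fintype G] [DecidableEq G] {m : ℕ} (hm : 0 < m) (hs : Sml m) (chi : G →+ ZMod m)
    (B : Finset G) (hD : ∀ x, ¬ 3 * |(chi x).valMinAbs| < (m : ℤ) →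
      2 * (3 * ((inn chi B).card : ℤ) - (2 * dlt (inn chi B) x + dlt' (inn chi B) x)) ≤
      3 * ((lev chi (inn chi B) 1).card + (lev chi (inn chi B) (-1)).card)) (c T w : ℤ)
    (hc : c = (lev chi B 0).card) (hw : w = (outr chi B).card) (hT : (B.card : ℤ) = c + T + w) :
    GL.FF B ≤ GL.FF (inn chi B) - 6 * c * w + 9 * w ^ 2 := by
  have hN := inn_noWrap chi B
  have h3 := card_three hs chi _ hN
  have hl := lev_inn_zero hm chi B
  have hcd := inn_card chi B
  rw [hl] at h3
  have hT2 : T = ((lev chi (inn chi B) 1).card : ℤ) + (lev chi (inn chi B) (-1)).card := by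
    have h4 : ((inn chi B).card : ℤ) = (lev chi B 0).card + (lev chi (inn chi B) 1).card +
        (lev chi (inn chi B) (-1)).card := by exact_mod_cast h3
    have h5 : ((inn chi B).card : ℤ) + (outr chi B).card = B.card := by exact_mod_cast hcd
    linarith
  have h := remove_outer (inn chi B) (outr chi B) (inn_disj chi B) (3 * T / 2) (by
    intro x hx
    have h7 := hD x (mem_filter.1 hx).2
    rw [← hT2] at h7
    omega)
  rw [inn_union, ← hw] at h
  have h6 : ((inn chi B).card : ℤ) = c + T := by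
    have h5 : ((inn chi B).card : ℤ) + (outr chi B).card = B.card := by exact_mod_cast hcd
    linarith
  rw [h6] at h
  have h8 : 2 * (3 * T / 2) ≤ 3 * T := Int.mul_ediv_self_le (by norm_num)
  have h9 : 0 ≤ w := by rw [hw]; positivity
  have h10 := mul_le_mul_of_nonneg_left h8 h9
  linarith

theorem rem5 [Fintype G] [DecidableEq G] (chi : G →+ ZMod 5) (B : Finset G) (c T w : ℤ)
    (hc : c = (lev chi B 0).card) (hw : w = (outr chi B).card) (hT : (B.card : ℤ) = c + T + w) :
    GL.FF B ≤ GL.FF (inn chi B) - 6 * c * w + 9 * w ^ 2 :=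
  rem56 (by norm_num) sml5 chi B (fun x hx => D56 chi _ (inn_noWrap chi B) (by decide) (by decide)
    (by decide) dec5a dec5b x hx) c T w hc hw hT

theorem rem6 [Fintype G] [DecidableEq G] (chi : G →+ ZMod 6) (B : Finset G) (c T w : ℤ)
    (hc : c = (lev chi B 0).card) (hw : w = (outr chi B).card) (hT : (B.card : ℤ) = c + T + w) :
    GL.FF B ≤ GL.FF (inn chi B) - 6 * c * w + 9 * w ^ 2 :=
  rem56 (by norm_num) sml6 chi B (fun x hx => D56 chi _ (inn_noWrap chi B) (by decide) (by decide)
    (by decide) dec6a dec6b x hx) c T w hc hw hT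

end Pool.Agent.SM
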