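import Mathlib
import Pool.Agent.Lib_helper28.SM.Rem
import Pool.Agent.Lib_helper28.ST.Near
import Pool.Agent.Lib_helper59.NEG.Main
import Pool.Agent.Lib_helper25.PR.GL3
import Pool.Agent.Lib_helper25.PR.F0N
import Pool.Agent.Lib_helper25.PR.PS

/-!
# Small order of the largest character: the two cases, with the numerical facts as hypotheses
-/

set_option autoImplicit false

namespace Pool.Agent.SM

open Finset Pool.Agent.Lib_helper13.PL Pool.Agent.POS Pool.Agent.ST Pool.Agent.GL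
  Pool.Agent.NEG Pool.Agent.KE

/-- a subgroup of order at least `b / 3` with a quotient of exponent `≥ 4` is alive -/
theorem al_small {G : Type*} [AddCommGroup G] {b : ℕ} {H : AddSubgroup G}
    (h4 : Alive H 4) (hb : b ≤ 3 * Nat.card H) : Al b H := by
  rcases le_or_gt b (Nat.card H) with h1 | h1
  · exact ⟨0, Or.inl ⟨by omega, by omega, h4.mono (by omega)⟩⟩
  rcases le_or_gt b (2 * Nat.card H) with h2 | h2
  · exact ⟨0, Or.inr ⟨by omega, by omega, h4.mono (by omega)⟩⟩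
  · exact ⟨1, Or.inl ⟨by omega, by omega, h4.mono (by omega)⟩⟩

/-- subgroups of the kernel -/
theorem alive_of_ker {G : Type*} [AddCommGroup G] {m : ℕ} [NeZero m] (chi : G →+ ZMod m)
    (hchi : Function.Surjective chi) {K : AddSubgroup G} (hK : ∀ x ∈ K, chi x = 0) :
    Alive K m := by
  obtain ⟨g, hg⟩ := hchi 1
  refine ⟨g, fun i h0 h1 h2 => ?_⟩
  have h3 := hK _ h2
  rw [map_nsmul, hg, nsmul_eq_mul, mul_one] at h3
  have h4 := (ZMod.natCast_eq_zero_iff i m).1 h3
  exact absurd (Nat.le_of_dvd h0 h4) (by omega)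

/-- near a subgroup of the kernel -/
theorem near_all {G : Type*} [AddCommGroup G] [Fintype G] [DecidableEq G] {m : ℕ} [NeZero m]
    (hm : 4 ≤ m) (chi : G →+ ZMod m) (hchi : Function.Surjective chi)
    (IH : ∀ M : AddSubgroup G, M ≠ ⊤ → ∀ B' : Finset M, GL.Bd M B'.card (GL.FF B'))
    (B : Finset G) (w : ℤ) (hw : w = (outr chi B).card)
    (K : AddSubgroup G) (KK : Finset G) (hKK : ∀ x, x ∈ KK ↔ x ∈ K)
    (hKL : ∀ x ∈ K, chi x = 0)
    (h4 : 4 * (((KK \ lev chi (inn chi B) 0).card : ℤ) + ((lev chi (inn chi B) 0 \ KK).card : ℤ)) ≤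
      KK.card)
    (hrem : 5 * GL.FF B + 13 * w ^ 2 ≤ 5 * GL.FF (inn chi B))
    (hF : -4 * (KK.card : ℤ) ^ 2 < 5 * GL.FF B)
    (hT : 4 * ((lev chi (inn chi B) 0).card : ℤ) ≤ 3 * (inn chi B).card)
    (hTw : 7 * ((lev chi (inn chi B) 0).card : ℤ) ≤ 4 * B.card)
    (hn : 25 * B.card ≤ 12 * Nat.card G) : GL.Bd G B.card (GL.FF B) := by
  refine st_near chi hchi hm IH B K KK hKK hKL (inn chi B) rfl w ?_ h4 hrem hF hT hTw hn
  rw [hw]
  congr 2
  unfold outr
  exact filter_congr fun x _ => not_lt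

/-- **case (a), small `m`** -/
theorem case_a {G : Type*} [AddCommGroup G] [Fintype G] [DecidableEq G] {m : ℕ} [NeZero m]
    (hm : 4 ≤ m) (hm6 : m ≤ 6) (chi : G →+ ZMod m) (hchi : Function.Surjective chi)
    (IH : ∀ M : AddSubgroup G, M ≠ ⊤ → ∀ B' : Finset M, GL.Bd M B'.card (GL.FF B'))
    (B : Finset G) (w : ℤ) (hw : w = (outr chi B).card) (hb0 : 0 < B.card)
    (h74 : 7 * (lev chi (inn chi B) 0).card ≤ 4 * (inn chi B).card)
    (hrem : 5 * GL.FF B + 13 * w ^ 2 ≤ 5 * GL.FF (inn chi B))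
    (hn : 25 * B.card ≤ 12 * Nat.card G)
    (hthin : ∀ K' : ℕ, 6 * (m * K') < 5 * B.card → 4 * K' ≤ 3 * (lev chi (inn chi B) 0).card ∨
      48 * K' ≤ 10 * (inn chi B).card)
    (hnb : ∀ x K' : ℤ, 0 ≤ K' → m * K' ≤ x → 6 * x < 5 * B.card →
      (20 * GL.FF (inn chi B) ≤ -11 * ((inn chi B).card : ℤ) ^ 2 + 140 * K' ^ 2 ∨
        GL.FF (inn chi B) ≤ -((inn chi B).card : ℤ) ^ 2 + 5 * K' ^ 2) →
      3 * GL.FF B ≤ -(B.card : ℤ) ^ 2 ∨
        (GL.FF B ≤ (2 * x - B.card) * (6 * x - 5 * B.card) ∧ (B.card : ℤ) ≤ 2 * x)) :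
    Bd G B.card (GL.FF B) := by
  classical
  by_contra hBd
  obtain ⟨B', hB'⟩ : ∃ B', B' = inn chi B := ⟨_, rfl⟩
  rw [← hB'] at h74 hrem hthin hnb
  have hN : NoWrap chi B' := by rw [hB']; exact inn_noWrap chi B
  have hbn : B.card < Nat.card G := by omega
  have hle : GL.FF B ≤ GL.FF B' := by nlinarith [sq_nonneg w]
  have h43 : 4 * (lev chi B' 0).card ≤ 3 * B'.card := by omega
  have hb'b : B'.card ≤ B.card := by rw [hB']; exact card_filter_le _ _
  have hJ : (m - 1) / 3 = 1 := by omega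
  -- a value at least zero is impossible for `F`
  have hzero : (∃ v, W G B.card v ∧ 0 ≤ v) → False := by
    intro hv
    by_cases hF : GL.FF B ≤ 0
    · exact hBd (bd_of hv hF)
    push Not at hF
    obtain ⟨K, KK, j, s, hKL, hKK, h9, _⟩ := pos_struct chi B' hN h43 (by omega)
    apply hBd
    refine near_all hm chi hchi IH B w hw K KK hKK hKL ?_ ?_ ?_ ?_ ?_ hn
    · rw [← hB']
      have h1 : (0 : ℤ) ≤ ((KK \ lev chi B' 0).card : ℤ) := by positivity
      have h2 : (0 : ℤ) ≤ ((lev chi B' 0 \ KK).card : ℤ) := by positivity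
      linarith
    · rw [← hB']; exact hrem
    · have := sq_nonneg (KK.card : ℤ)
      linarith
    · rw [← hB']; exact_mod_cast h43
    · rw [← hB']
      have : 7 * (lev chi B' 0).card ≤ 4 * B.card := by omega
      exact_mod_cast this
  by_cases hd : ∃ K : AddSubgroup G, (∀ x ∈ K, chi x = 0) ∧ ¬ Al B.card K
  swap
  · push Not at hd
    exact hzero (al_bot (hd ⊥ (by
      intro x hx
      rw [AddSubgroup.mem_bot] at hx
      rw [hx, map_zero])))
  obtain ⟨K0, hK0L, hK0, hmax⟩ : ∃ K : AddSubgroup G, (∀ x ∈ K, chi x = 0) ∧ ¬ Al B.card K ∧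
      ∀ H : AddSubgroup G, (∀ x ∈ H, chi x = 0) → ¬ Al B.card H → Nat.card H ≤ Nat.card K := by
    obtain ⟨K0, hK0⟩ := hd
    have hfin : Finite (AddSubgroup G) := inferInstance
    obtain ⟨K, hK, hmax⟩ := Set.exists_max_image
      {K : AddSubgroup G | (∀ x ∈ K, chi x = 0) ∧ ¬ Al B.card K}
      (fun K => Nat.card K) (Set.toFinite _) ⟨K0, hK0⟩
    exact ⟨K, hK.1, hK.2, fun H hH1 hH2 => hmax H ⟨hH1, hH2⟩⟩
  obtain ⟨E, hE1, hEmax, hEal, H, hKH, hHc, hS⟩ := exists_level K0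
  have hkpos : 0 < Nat.card K0 := Nat.card_pos
  have hmE : m ≤ E := hEmax _ (alive_of_ker chi hchi hK0L)
  by_cases h56 : 5 * B.card ≤ 6 * (E * Nat.card K0)
  · exact hzero (dead_big hbn hK0 hEal hHc hS h56)
  push Not at h56
  have hmK : m * Nat.card K0 ≤ E * Nat.card K0 := Nat.mul_le_mul_right _ hmE
  have hHne : H ≠ ⊤ := by
    rintro rfl
    rw [AddSubgroup.card_top] at hHc
    omega
  have hal : ∀ K : AddSubgroup G, (∀ x ∈ K, chi x = 0) → Nat.card K0 < Nat.card K →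
      Al B.card K := by
    intro K hK hlt
    by_contra hh
    exact absurd (hmax K hK hh) (by omega)
  -- the smallest order above the dead ones
  obtain ⟨h, hh1, hord, hval⟩ : ∃ h : ℕ, 1 ≤ h ∧ (∀ H : AddSubgroup G, (∀ t ∈ H, chi t = 0) →
      Nat.card H ≤ Nat.card K0 ∨ h ≤ Nat.card H) ∧
      (5 * GL.FF B ≤ -4 * (h : ℤ) ^ 2 → Bd G B.card (GL.FF B)) := by
    by_cases hex : ∃ K : AddSubgroup G, (∀ x ∈ K, chi x = 0) ∧ Nat.card K0 < Nat.card K
    · obtain ⟨K1, hK1L, hK1, hmin⟩ : ∃ K : AddSubgroup G, (∀ x ∈ K, chi x = 0) ∧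
          Nat.card K0 < Nat.card K ∧ ∀ H : AddSubgroup G, (∀ x ∈ H, chi x = 0) →
            Nat.card K0 < Nat.card H → Nat.card K ≤ Nat.card H := by
        obtain ⟨K2, hK2⟩ := hex
        have hfin : Finite (AddSubgroup G) := inferInstance
        obtain ⟨K, hK, hmin⟩ := Set.exists_min_image
          {K : AddSubgroup G | (∀ x ∈ K, chi x = 0) ∧ Nat.card K0 < Nat.card K}
          (fun K => Nat.card K) (Set.toFinite _) ⟨K2, hK2⟩
        exact ⟨K, hK.1, hK.2, fun H hH1 hH2 => hmin H ⟨hH1, hH2⟩⟩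
      refine ⟨Nat.card K1, Nat.card_pos, fun H hH => ?_, fun hF => bd_al (hal K1 hK1L hK1) hF⟩
      rcases le_or_gt (Nat.card H) (Nat.card K0) with h1 | h1
      · exact Or.inl h1
      · exact Or.inr (hmin H hH h1)
    · push Not at hex
      refine ⟨Nat.card G, by omega, fun H hH => Or.inl (hex H hH), fun hF => bd_third hbn ?_⟩
      have h1 : (B.card : ℤ) ≤ Nat.card G := by exact_mod_cast hbn.le
      have h2 : (0 : ℤ) ≤ B.card := by positivity
      nlinarith
  have hth := hthin (Nat.card K0) (by omega)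
  rcases kstar_struct3 chi B' hN h74 (Nat.card K0 : ℤ) (h : ℤ) (by exact_mod_cast hkpos)
    (by exact_mod_cast hh1)
    (by
      rw [hJ]
      rcases hth with h1 | h1
      · left; exact_mod_cast h1
      · right; left
        have h2 : 48 * (Nat.card K0 : ℤ) ≤ 10 * (B'.card : ℤ) := by exact_mod_cast h1
        push_cast
        linarith)
    (fun H hH => by
      rcases hord H hH with h1 | h1
      · left; exact_mod_cast h1
      · right; exact_mod_cast h1) with h1 | h1 | ⟨K, KK, hK1, hK2, hK3, hK4, hK5⟩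
  · -- no bonus
    have h2 := no_bonus_core chi B' hN h43 (Nat.card K0 : ℤ) (by positivity) h1 1 hJ.symm
      (B'.card : ℤ) (GL.FF B') rfl rfl
    have hx : (m : ℤ) * (Nat.card K0 : ℤ) ≤ ((E * Nat.card K0 : ℕ) : ℤ) := by exact_mod_cast hmK
    have hx2 : 6 * ((E * Nat.card K0 : ℕ) : ℤ) < 5 * (B.card : ℤ) := by exact_mod_cast h56
    have hpos : 0 < B'.card := by
      by_contra h0
      have h0' : B'.card = 0 := by omega
      have h3 : GL.FF B' = 0 := by
        rw [card_eq_zero] at h0'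
        rw [h0']
        unfold GL.FF GL.sch
        simp
      rcases hnb ((E * Nat.card K0 : ℕ) : ℤ) (Nat.card K0 : ℤ) (by positivity) hx hx2
        (Or.inr (by rw [h3, h0']; push_cast; nlinarith [sq_nonneg (Nat.card K0 : ℤ)])) with h4 | h4
      · exact hBd (bd_third hbn h4)
      · apply hBd
        refine ⟨_, WII_above hHne (b := B.card) (by rw [hHc]; omega) (by
          rw [hHc]; exact_mod_cast h4.2), ?_⟩
        rw [hHc]
        exact h4.1
    rcases hnb ((E * Nat.card K0 : ℕ) : ℤ) (Nat.card K0 : ℤ) (by positivity) hx hx2 (by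
        rcases h2 with h2 | h2 | h2 | h2 | h2
        · exact absurd h2.1 (by norm_num)
        · exact absurd h2.1 (by norm_num)
        · exact Or.inl h2.2
        · exact Or.inr h2.2
        · exact absurd h2.1 (by exact_mod_cast hpos.ne')) with h4 | h4
    · exact hBd (bd_third hbn h4)
    · apply hBd
      refine ⟨_, WII_above hHne (b := B.card) (by rw [hHc]; omega) (by
        rw [hHc]; exact_mod_cast h4.2), ?_⟩
      rw [hHc]
      exact h4.1
  · exact hBd (hval (by linarith))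
  · have hAl := hal K hK1 (by exact_mod_cast hK3)
    have hKKc : KK.card = Nat.card K := by
      have : KK = univ.filter (fun x => x ∈ K) := by
        ext x; simp [hK2]
      rw [this, Nat.card_eq_fintype_card, Fintype.card_subtype]
    by_cases h5 : 5 * GL.FF B ≤ -4 * (Nat.card K : ℤ) ^ 2
    · exact hBd (bd_al hAl h5)
    push Not at h5
    apply hBd
    refine near_all hm chi hchi IH B w hw K KK hK2 hK1 ?_ ?_ ?_ ?_ ?_ hn
    · rw [← hB', hKKc]; exact hK5.le
    · rw [← hB']; exact hrem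
    · rw [hKKc]; exact h5
    · rw [← hB']; exact_mod_cast h43
    · rw [← hB']
      have : 7 * (lev chi B' 0).card ≤ 4 * B.card := by omega
      exact_mod_cast this

/-- numbers for the distance -/
theorem dist_quarter (h d c F0 : ℤ) (hd : 0 ≤ d) (h3 : 3 * d < h) (hc : h - d ≤ c)
    (hF : F0 ≤ (h - 3 * d) ^ 2) (hF2 : c ^ 2 < 2 * F0) : 4 * d ≤ h := by
  by_contra hh
  push Not at hh
  have h1 : (h - d) ^ 2 ≤ c ^ 2 := pow_le_pow_left₀ (by linarith) hc 2
  nlinarith [mul_pos (by linarith : 0 < h - 3 * d) (by linarith : 0 < 4 * d - h)]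

/-- **case (b), small `m`** -/
theorem case_b {G : Type*} [AddCommGroup G] [Fintype G] [DecidableEq G] {m : ℕ} [NeZero m]
    (hm : 4 ≤ m) (chi : G →+ ZMod m) (hchi : Function.Surjective chi)
    (IH : ∀ M : AddSubgroup G, M ≠ ⊤ → ∀ B' : Finset M, GL.Bd M B'.card (GL.FF B'))
    (B : Finset G) (w : ℤ) (hw : w = (outr chi B).card) (hb0 : 0 < B.card)
    (hglue : 7 * (lev chi (inn chi B) 0).card ≤ 4 * B.card)
    (h512 : 5 * B.card ≤ 12 * (lev chi (inn chi B) 0).card)
    (hrem : 5 * GL.FF B + 13 * w ^ 2 ≤ 5 * GL.FF (inn chi B))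
    (hn : 25 * B.card ≤ 12 * Nat.card G)
    (hF0 : 2 * GL.FF (lev chi (inn chi B) 0) ≤ ((lev chi (inn chi B) 0).card : ℤ) ^ 2 →
      3 * GL.FF B ≤ -(B.card : ℤ) ^ 2)
    (hT : 3 * ((inn chi B).card : ℤ) < 4 * (lev chi (inn chi B) 0).card →
      3 * GL.FF B ≤ -(B.card : ℤ) ^ 2) :
    Bd G B.card (GL.FF B) := by
  classical
  have hbn : B.card < Nat.card G := by omega
  by_cases h1 : 2 * GL.FF (lev chi (inn chi B) 0) ≤ ((lev chi (inn chi B) 0).card : ℤ) ^ 2
  · exact bd_third hbn (hF0 h1)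
  by_cases h2 : 3 * ((inn chi B).card : ℤ) < 4 * (lev chi (inn chi B) 0).card
  · exact bd_third hbn (hT h2)
  push Not at h1 h2
  obtain ⟨B0, hB0⟩ : ∃ B0, B0 = lev chi (inn chi B) 0 := ⟨_, rfl⟩
  rw [← hB0] at h1 h2 hglue h512
  have hlev : ∀ x ∈ B0, chi x = 0 := by
    intro x hx
    rw [hB0] at hx
    exact (mem_filter.1 hx).2
  obtain ⟨H, HH, hHL, hHH, hd3, hFd⟩ := f0_near chi B0 hlev (by nlinarith [sq_nonneg (B0.card : ℤ)])
  have hHHc : HH.card = Nat.card H := by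
    have : HH = univ.filter (fun x => x ∈ H) := by
      ext x; simp [hHH]
    rw [this, Nat.card_eq_fintype_card, Fintype.card_subtype]
  obtain ⟨d, hd⟩ : ∃ d : ℤ, d = ((HH \ B0).card : ℤ) + ((B0 \ HH).card : ℤ) := ⟨_, rfl⟩
  rw [← hd] at hd3 hFd
  have p0 : (0 : ℤ) ≤ ((HH \ B0).card : ℤ) := by positivity
  have p1 : (0 : ℤ) ≤ ((B0 \ HH).card : ℤ) := by positivity
  have hd0 : 0 ≤ d := by linarith
  have e1 : (HH \ B0).card + (HH ∩ B0).card = HH.card := card_sdiff_add_card_inter HH B0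
  have e2 : (B0 \ HH).card + (B0 ∩ HH).card = B0.card := card_sdiff_add_card_inter B0 HH
  rw [inter_comm] at e2
  have e1' : ((HH \ B0).card : ℤ) + ((HH ∩ B0).card : ℤ) = Nat.card H := by
    rw [← hHHc]; exact_mod_cast e1
  have e2' : ((B0 \ HH).card : ℤ) + ((HH ∩ B0).card : ℤ) = B0.card := by exact_mod_cast e2
  have hc1 : (Nat.card H : ℤ) - d ≤ B0.card := by linarith
  have hc2 : (B0.card : ℤ) ≤ Nat.card H + d := by linarith
  have h4d := dist_quarter (Nat.card H : ℤ) d (B0.card : ℤ) (GL.FF B0) hd0 hd3 hc1 hFd (by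
    linarith)
  have hb3 : B.card ≤ 3 * Nat.card H := by
    have h5 : 5 * (B.card : ℤ) ≤ 12 * B0.card := by exact_mod_cast h512
    have h6 : (B.card : ℤ) ≤ 3 * (Nat.card H : ℤ) := by linarith
    exact_mod_cast h6
  have hAl : Al B.card H := al_small ((alive_of_ker chi hchi hHL).mono hm) hb3
  by_cases h5 : 5 * GL.FF B ≤ -4 * (Nat.card H : ℤ) ^ 2
  · exact bd_al hAl h5
  push Not at h5
  refine near_all hm chi hchi IH B w hw H HH hHH hHL ?_ hrem ?_ ?_ ?_ hn
  · rw [← hB0, ← hd, hHHc]; exact h4d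
  · rw [hHHc]; exact h5
  · rw [← hB0]; exact h2
  · rw [← hB0]; exact_mod_cast hglue

end Pool.Agent.SM
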