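import Mathlib

/-!
# Small order of the largest character: numbers
-/

set_option autoImplicit false

namespace Pool.Agent.SM

section four

/-- `m = 4` : `T - c` -/
theorem n4_tc (b c T w : ℤ) (hT : b = c + T + w) (hc : 6 * b + 11 * w ≤ 11 * c) :
    11 * (T - c) ≤ -b - 33 * w := by linarith

theorem n4_rem (b c T w F F' : ℤ) (hb : 0 ≤ b) (hw : 0 ≤ w) (hT : b = c + T + w)
    (hc : 6 * b + 11 * w ≤ 11 * c) (hF : F ≤ F' + 6 * w * (T - c) + 9 * w ^ 2) :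
    5 * F + 13 * w ^ 2 ≤ 5 * F' := by
  have h1 := n4_tc b c T w hT hc
  have h2 := mul_le_mul_of_nonneg_left h1 hw
  nlinarith [mul_nonneg hb hw]

/-- `m = 4`, no bonus -/
theorem n4_nb (b c T w F F' x K : ℝ) (hb : 0 ≤ b) (hw : 0 ≤ w) (hT : b = c + T + w)
    (hc : 6 * b + 11 * w ≤ 11 * c) (hF : F ≤ F' + 6 * w * (T - c) + 9 * w ^ 2)
    (hK : 0 ≤ K) (hx : 4 * K ≤ x) (hx2 : 6 * x < 5 * b)
    (h : 20 * F' ≤ -11 * (b - w) ^ 2 + 140 * K ^ 2 ∨ F' ≤ -(b - w) ^ 2 + 5 * K ^ 2) :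
    3 * F ≤ -b ^ 2 ∨ (F ≤ (2 * x - b) * (6 * x - 5 * b) ∧ b ≤ 2 * x) := by
  have h1 : 11 * (T - c) ≤ -b - 33 * w := by linarith
  have h2 : w * (11 * (T - c)) ≤ w * (-b - 33 * w) := mul_le_mul_of_nonneg_left h1 hw
  have hK2 : 16 * K ^ 2 ≤ x ^ 2 := by nlinarith
  have hx0 : 0 ≤ x := by linarith
  have hxb : 36 * x ^ 2 ≤ 25 * b ^ 2 := by nlinarith
  -- `11 F ≤ 11 F' - 6 b w - 99 w²`
  have h3 : 11 * F ≤ 11 * F' - 6 * b * w - 99 * w ^ 2 := by nlinarith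
  rcases h with h | h
  · -- 220 F ≤ -121 (b-w)² + 1540 K² - 120 b w - 1980 w²
    have h4 : 220 * F ≤ -121 * (b - w) ^ 2 + 1540 / 16 * x ^ 2 - 120 * b * w - 1980 * w ^ 2 := by
      linarith
    -- maximum over w
    have h5 : 220 * F ≤ -(11922 / 100) * b ^ 2 + 1540 / 16 * x ^ 2 := by
      nlinarith [sq_nonneg (122 * b - 4202 * w)]
    rcases le_or_gt (100 * x) (69 * b) with h6 | h6
    · left
      have h7 : 10000 * x ^ 2 ≤ 4761 * b ^ 2 := by nlinarith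
      linarith
    · right
      refine ⟨?_, by linarith⟩
      nlinarith [sq_nonneg (2312 * x - 1600 * b)]
  · left
    have h4 : 11 * F ≤ -11 * (b - w) ^ 2 + 55 / 16 * x ^ 2 - 6 * b * w - 99 * w ^ 2 := by
      linarith
    nlinarith [sq_nonneg (16 * b - 220 * w)]

/-- `m = 4`, gap -/
theorem n4_gap (b c T w F F' F0 : ℝ) (hb : 0 ≤ b) (hw : 0 ≤ w) (hT : b = c + T + w)
    (hc : 6 * b + 11 * w ≤ 11 * c) (hF : F ≤ F' + 6 * w * (T - c) + 9 * w ^ 2)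
    (hF' : F' ≤ F0 - 6 * c * T + 5 * T ^ 2) (hF0 : 2 * F0 ≤ c ^ 2) (hgap : 4 * T ≤ 3 * c)
    (h74 : 7 * c ≤ 4 * b) : 3 * F ≤ -b ^ 2 := by
  have h1 : 11 * (T - c) ≤ -b - 33 * w := by linarith
  have h2 : w * (11 * (T - c)) ≤ w * (-b - 33 * w) := mul_le_mul_of_nonneg_left h1 hw
  have h3 : 11 * F ≤ 11 * F' - 6 * b * w - 99 * w ^ 2 := by nlinarith
  have hT2 : 7 * c ≤ 10 * T := by linarith
  have h4 : 0 ≤ b * w := mul_nonneg hb hw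
  have h5 : F ≤ F' := by nlinarith [sq_nonneg w]
  have h6 : 8 * F ≤ -(19 / 2) * c ^ 2 := by
    nlinarith [mul_nonneg (by linarith : 0 ≤ 3 * c - 4 * T) (by linarith : 0 ≤ 10 * T - 7 * c)]
  have h7 : 36 * b ^ 2 ≤ 121 * c ^ 2 := by nlinarith
  nlinarith

end four

section five

theorem n5_rem (b c T w F F' : ℤ) (hb : 0 ≤ b) (hw : 0 ≤ w) (hT : b = c + T + w) (hT0 : 0 ≤ T)
    (hc : 1639 * b + 11181 * w ≤ 6909 * c) (hF : F ≤ F' - 6 * c * w + 9 * w ^ 2) :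
    5 * F + 13 * w ^ 2 ≤ 5 * F' := by
  have h1 : 2 * b + 14 * w ≤ 9 * c := by linarith
  have h2 := mul_le_mul_of_nonneg_left h1 hw
  have h3 : 2 * w ≤ b := by linarith
  nlinarith [mul_nonneg hb hw, mul_nonneg hw (by linarith : 0 ≤ b - 2 * w)]

theorem n5_nb (b c T w F F' x K : ℝ) (hb : 0 ≤ b) (hw : 0 ≤ w) (hT : b = c + T + w)
    (hT0 : 0 ≤ T) (hc : 1639 * b + 11181 * w ≤ 6909 * c) (hF : F ≤ F' - 6 * c * w + 9 * w ^ 2)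
    (hK : 0 ≤ K) (hx : 5 * K ≤ x) (hx2 : 6 * x < 5 * b)
    (h : 20 * F' ≤ -11 * (b - w) ^ 2 + 140 * K ^ 2 ∨ F' ≤ -(b - w) ^ 2 + 5 * K ^ 2) :
    3 * F ≤ -b ^ 2 := by
  have h1 : 2 * b + 16 * w ≤ 10 * c - 1 / 3 * b := by linarith
  have h2 : w * (2 * b + 16 * w) ≤ w * (10 * c - 1 / 3 * b) := mul_le_mul_of_nonneg_left h1 hw
  have hK2 : 36 * K ^ 2 ≤ b ^ 2 := by nlinarith
  have h3 : 0 ≤ b * w := mul_nonneg hb hw
  -- `6 c w ≥ 1.4 b w + 9.6 w²`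
  have h4 : F ≤ F' - 14 / 10 * b * w - 6 / 10 * w ^ 2 := by nlinarith
  rcases h with h | h
  · nlinarith [sq_nonneg w]
  · nlinarith [sq_nonneg (3 * b - 16 * w)]

theorem n5_gap (b c T w F F' F0 : ℝ) (hb : 0 ≤ b) (hw : 0 ≤ w) (hT : b = c + T + w)
    (hT0 : 0 ≤ T) (hc : 1639 * b + 11181 * w ≤ 6909 * c) (hF : F ≤ F' - 6 * c * w + 9 * w ^ 2)
    (hF' : F' ≤ F0 - 6 * c * T + 5 * T ^ 2) (hF0 : 2 * F0 ≤ c ^ 2) (hgap : 4 * T ≤ 3 * c)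
    (h74 : 7 * c ≤ 4 * b) : 3 * F ≤ -b ^ 2 := by
  have hF2 : 2 * F ≤ c ^ 2 - 12 * c * (b - c) + 10 * T ^ 2 + 18 * w ^ 2 := by
    have e : T = b - c - w := by linarith
    nlinarith
  have hc48 : 48 * b ≤ 100 * c := by linarith
  -- the chord in `T`
  have h1 := mul_nonneg (by linarith : 0 ≤ 3 * c - 4 * T)
    (by linarith : 0 ≤ 6909 * c - 1639 * b - 11181 * w)
  have h2 := mul_nonneg (by linarith : 0 ≤ 100 * c - 48 * b) (by linarith : 0 ≤ 4 * b - 7 * c)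
  have h3 := mul_nonneg (by linarith : 0 ≤ 3 * c - 4 * T) (by linarith : 0 ≤ 4 * b - 7 * c)
  have h4 := mul_nonneg (by linarith : 0 ≤ 3 * c - 4 * T) hb
  have h5 := mul_nonneg (by linarith : 0 ≤ 100 * c - 48 * b)
    (by linarith : 0 ≤ 3 * c - 4 * T)
  have e : T = b - c - w := by linarith
  subst e
  nlinarith

end five

section six

theorem n6_rem (b c w F F' : ℤ) (hb : 0 ≤ b) (hw : 0 ≤ w)
    (hc : b + 22 * w ≤ 11 * c) (hF : F ≤ F' - 6 * c * w + 9 * w ^ 2) :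
    5 * F + 13 * w ^ 2 ≤ 5 * F' := by
  have h2 := mul_le_mul_of_nonneg_left hc hw
  nlinarith [mul_nonneg hb hw, mul_nonneg hw hw]

theorem n6_nb (b c w F F' x K : ℝ) (hb : 0 ≤ b) (hw : 0 ≤ w)
    (hc : b + 22 * w ≤ 11 * c) (hF : F ≤ F' - 6 * c * w + 9 * w ^ 2)
    (hK : 0 ≤ K) (hx : 6 * K ≤ x) (hx2 : 6 * x < 5 * b)
    (h : 20 * F' ≤ -11 * (b - w) ^ 2 + 140 * K ^ 2 ∨ F' ≤ -(b - w) ^ 2 + 5 * K ^ 2) :
    3 * F ≤ -b ^ 2 := by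
  have h2 : w * (b + 22 * w) ≤ w * (11 * c) := mul_le_mul_of_nonneg_left hc hw
  have hK2 : 1296 * K ^ 2 ≤ 25 * b ^ 2 := by nlinarith
  have h4 : 11 * F ≤ 11 * F' - 6 * b * w - 33 * w ^ 2 := by nlinarith
  rcases h with h | h
  · nlinarith [sq_nonneg (b - 12 * w), sq_nonneg (b - 13 * w)]
  · nlinarith [sq_nonneg (2 * b - 11 * w)]

theorem n6_gap (b c T w F F' F0 : ℝ) (hb : 0 ≤ b) (hw : 0 ≤ w) (hT : b = c + T + w)
    (hT0 : 0 ≤ T) (hc : b + 22 * w ≤ 11 * c) (hF : F ≤ F' - 6 * c * w + 9 * w ^ 2)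
    (hF' : F' ≤ F0 - 6 * c * T + 5 * T ^ 2) (hF0 : 2 * F0 ≤ c ^ 2) (hgap : 4 * T ≤ 3 * c)
    (h74 : 7 * c ≤ 4 * b) : 3 * F ≤ -b ^ 2 := by
  have hF2 : 2 * F ≤ c ^ 2 - 12 * c * (b - c) + 10 * T ^ 2 + 18 * w ^ 2 := by
    have e : T = b - c - w := by linarith
    nlinarith
  have hc46 : 46 * b ≤ 100 * c := by linarith
  have h1 := mul_nonneg (by linarith : 0 ≤ 3 * c - 4 * T)
    (by linarith : 0 ≤ 11 * c - b - 22 * w)
  have h2 := mul_nonneg (by linarith : 0 ≤ 100 * c - 46 * b) (by linarith : 0 ≤ 4 * b - 7 * c)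
  have h3 := mul_nonneg (by linarith : 0 ≤ 3 * c - 4 * T) (by linarith : 0 ≤ 4 * b - 7 * c)
  have h4 := mul_nonneg (by linarith : 0 ≤ 3 * c - 4 * T) hb
  have h5 := mul_nonneg (by linarith : 0 ≤ 100 * c - 46 * b)
    (by linarith : 0 ≤ 3 * c - 4 * T)
  have e : T = b - c - w := by linarith
  subst e
  nlinarith

/-- `m = 6`, few inner elements of height one -/
theorem n6_few (b c T w F F' F0 : ℝ) (hb : 0 ≤ b) (hw : 0 ≤ w) (hT : b = c + T + w)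
    (hT0 : 0 ≤ T) (hc : b + 22 * w ≤ 11 * c) (hF : F ≤ F' - 6 * c * w + 9 * w ^ 2)
    (hF' : F' ≤ F0 - 6 * c * T + 5 * T ^ 2) (hF0 : F0 ≤ c ^ 2) (hgap : 3 * T ≤ c)
    (h74 : 7 * c ≤ 4 * b) : 3 * F ≤ -b ^ 2 := by
  have hF2 : F ≤ c ^ 2 - 6 * c * (b - c) + 5 * T ^ 2 + 9 * w ^ 2 := by
    have e : T = b - c - w := by linarith
    nlinarith
  have hc57 : 57 * b ≤ 100 * c := by linarith
  have hw24 : 100 * w ≤ 25 * b := by linarith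
  have hT20 : 100 * T ≤ 20 * b := by linarith
  have h1 : 16 * w ^ 2 ≤ b ^ 2 := by nlinarith
  have h2 : 25 * T ^ 2 ≤ b ^ 2 := by nlinarith
  have h3 := mul_nonneg (by linarith : 0 ≤ 100 * c - 57 * b) (by linarith : 0 ≤ 4 * b - 7 * c)
  nlinarith

end six

end Pool.Agent.SM
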