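import Mathlib
import Pool.Agent.Lib_helper28.SM.Rem
import Pool.Agent.Lib_helper13.PL.FOU2

/-!
# Small order of the largest character: the real part of the coefficient
-/

set_option autoImplicit false

namespace Pool.Agent.SM

open Finset Pool.Agent.Lib_helper13.PL Pool.Agent.POS Pool.Agent.ST

variable {G : Type*} [AddCommGroup G]

/-- pointwise bound of the cosine gives the bound of the coefficient -/
theorem re_gen {m : ℕ} {χ : AddChar G ℂ} {φ : G →+ ZMod m} (h : Std χ φ) (B : Finset G)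
    (k1 k2 : ℝ) (hp : ∀ a : ZMod m, Real.cos (2 * Real.pi * a.valMinAbs / m) ≤
      (1 - k1) * (if a = 0 then 1 else 0) +
        (k1 - k2) * (if 3 * |a.valMinAbs| < (m : ℤ) then 1 else 0) + k2) (c T w : ℝ)
    (hc : c = (lev φ B 0).card) (hw : w = (outr φ B).card) (hT : (B.card : ℝ) = c + T + w) :
    (hat B χ).re ≤ c + k1 * T + k2 * w := by
  rw [hat_re_eq B h]
  have h1 : ∑ x ∈ B, Real.cos (2 * Real.pi * (φ x).valMinAbs / m) ≤
      ∑ x ∈ B, ((1 - k1) * (if φ x = 0 then 1 else 0) +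
        (k1 - k2) * (if 3 * |(φ x).valMinAbs| < (m : ℤ) then 1 else 0) + k2) :=
    Finset.sum_le_sum fun x _ => hp (φ x)
  refine h1.trans (le_of_eq ?_)
  rw [Finset.sum_add_distrib, Finset.sum_add_distrib, ← Finset.mul_sum, ← Finset.mul_sum,
    Finset.sum_boole, Finset.sum_boole, Finset.sum_const, nsmul_eq_mul]
  have h2 : ((B.filter (fun x => φ x = 0)).card : ℝ) = c := by rw [hc]; rfl
  have h3 : ((B.filter (fun x => 3 * |(φ x).valMinAbs| < (m : ℤ))).card : ℝ) = c + T := by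
    have h4 : ((inn φ B).card : ℝ) + (outr φ B).card = B.card := by exact_mod_cast inn_card φ B
    have h5 : ((inn φ B).card : ℝ) = c + T := by linarith
    exact h5
  rw [h2, h3, hT]
  ring

theorem val4 : ∀ a : ZMod 4, a.valMinAbs = 0 ∧ a = 0 ∨ a.valMinAbs = 1 ∧ a ≠ 0 ∨
    a.valMinAbs = -1 ∧ a ≠ 0 ∨ a.valMinAbs = 2 ∧ a ≠ 0 := by decide

theorem val5 : ∀ a : ZMod 5, a.valMinAbs = 0 ∧ a = 0 ∨ a.valMinAbs = 1 ∧ a ≠ 0 ∨
    a.valMinAbs = -1 ∧ a ≠ 0 ∨ a.valMinAbs = 2 ∧ a ≠ 0 ∨ a.valMinAbs = -2 ∧ a ≠ 0 := by decide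

theorem val6 : ∀ a : ZMod 6, a.valMinAbs = 0 ∧ a = 0 ∨ a.valMinAbs = 1 ∧ a ≠ 0 ∨
    a.valMinAbs = -1 ∧ a ≠ 0 ∨ a.valMinAbs = 2 ∧ a ≠ 0 ∨ a.valMinAbs = -2 ∧ a ≠ 0 ∨
    a.valMinAbs = 3 ∧ a ≠ 0 := by decide

theorem re4 {χ : AddChar G ℂ} {φ : G →+ ZMod 4} (h : Std χ φ) (B : Finset G) (c T w : ℝ)
    (hc : c = (lev φ B 0).card) (hw : w = (outr φ B).card) (hT : (B.card : ℝ) = c + T + w) :
    (hat B χ).re ≤ c - w := by
  have h1 := re_gen h B 0 (-1) (fun a => by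
    rcases val4 a with ⟨h1, h2⟩ | ⟨h1, h2⟩ | ⟨h1, h2⟩ | ⟨h1, h2⟩
    · rw [h1, if_pos h2]; norm_num
    · rw [h1, if_neg h2]
      have e : 2 * Real.pi * ((1 : ℤ) : ℝ) / ((4 : ℕ) : ℝ) = Real.pi / 2 := by push_cast; ring
      rw [e, Real.cos_pi_div_two]; norm_num
    · rw [h1, if_neg h2]
      have e : 2 * Real.pi * ((-1 : ℤ) : ℝ) / ((4 : ℕ) : ℝ) = -(Real.pi / 2) := by push_cast; ring
      rw [e, Real.cos_neg, Real.cos_pi_div_two]; norm_num
    · rw [h1, if_neg h2]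
      have e : 2 * Real.pi * ((2 : ℤ) : ℝ) / ((4 : ℕ) : ℝ) = Real.pi := by push_cast; ring
      rw [e, Real.cos_pi]; norm_num) c T w hc hw hT
  linarith

theorem cos5a : Real.cos (2 * Real.pi / 5) ≤ 3091 / 10000 := by
  have e : 2 * Real.pi / 5 = 2 * (Real.pi / 5) := by ring
  rw [e, Real.cos_two_mul, Real.cos_pi_div_five]
  have h1 : Real.sqrt 5 ≤ 22361 / 10000 := by
    rw [Real.sqrt_le_left (by norm_num)]; norm_num
  have h2 : 0 ≤ Real.sqrt 5 := Real.sqrt_nonneg 5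
  have h3 : Real.sqrt 5 ^ 2 = 5 := Real.sq_sqrt (by norm_num)
  nlinarith

theorem cos5b : Real.cos (4 * Real.pi / 5) ≤ -809 / 1000 := by
  have e : 4 * Real.pi / 5 = Real.pi - Real.pi / 5 := by ring
  rw [e, Real.cos_pi_sub, Real.cos_pi_div_five]
  have h1 : 22360 / 10000 ≤ Real.sqrt 5 := by
    apply Real.le_sqrt_of_sq_le; norm_num
  linarith

theorem re5 {χ : AddChar G ℂ} {φ : G →+ ZMod 5} (h : Std χ φ) (B : Finset G) (c T w : ℝ)
    (hc : c = (lev φ B 0).card) (hw : w = (outr φ B).card) (hT : (B.card : ℝ) = c + T + w) :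
    (hat B χ).re ≤ c + 3091 / 10000 * T - 809 / 1000 * w := by
  have h1 := re_gen h B (3091 / 10000) (-809 / 1000) (fun a => by
    rcases val5 a with ⟨h1, h2⟩ | ⟨h1, h2⟩ | ⟨h1, h2⟩ | ⟨h1, h2⟩ | ⟨h1, h2⟩
    · rw [h1, if_pos h2]; norm_num
    · rw [h1, if_neg h2]
      have e : 2 * Real.pi * ((1 : ℤ) : ℝ) / ((5 : ℕ) : ℝ) = 2 * Real.pi / 5 := by push_cast; ring
      rw [e]
      have := cos5a
      norm_num
      linarith
    · rw [h1, if_neg h2]
      have e : 2 * Real.pi * ((-1 : ℤ) : ℝ) / ((5 : ℕ) : ℝ) = -(2 * Real.pi / 5) := by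
        push_cast; ring
      rw [e, Real.cos_neg]
      have := cos5a
      norm_num
      linarith
    · rw [h1, if_neg h2]
      have e : 2 * Real.pi * ((2 : ℤ) : ℝ) / ((5 : ℕ) : ℝ) = 4 * Real.pi / 5 := by push_cast; ring
      rw [e]
      have := cos5b
      norm_num
      linarith
    · rw [h1, if_neg h2]
      have e : 2 * Real.pi * ((-2 : ℤ) : ℝ) / ((5 : ℕ) : ℝ) = -(4 * Real.pi / 5) := by
        push_cast; ring
      rw [e, Real.cos_neg]
      have := cos5b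
      norm_num
      linarith) c T w hc hw hT
  linarith

theorem re6 {χ : AddChar G ℂ} {φ : G →+ ZMod 6} (h : Std χ φ) (B : Finset G) (c T w : ℝ)
    (hc : c = (lev φ B 0).card) (hw : w = (outr φ B).card) (hT : (B.card : ℝ) = c + T + w) :
    (hat B χ).re ≤ c + T / 2 - w / 2 := by
  have c3 : Real.cos (Real.pi / 3) = 1 / 2 := Real.cos_pi_div_three
  have c23 : Real.cos (2 * Real.pi / 3) = -1 / 2 := by
    have e : 2 * Real.pi / 3 = Real.pi - Real.pi / 3 := by ring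
    rw [e, Real.cos_pi_sub, c3]; norm_num
  have h1 := re_gen h B (1 / 2) (-1 / 2) (fun a => by
    rcases val6 a with ⟨h1, h2⟩ | ⟨h1, h2⟩ | ⟨h1, h2⟩ | ⟨h1, h2⟩ | ⟨h1, h2⟩ | ⟨h1, h2⟩
    · rw [h1, if_pos h2]; norm_num
    · rw [h1, if_neg h2]
      have e : 2 * Real.pi * ((1 : ℤ) : ℝ) / ((6 : ℕ) : ℝ) = Real.pi / 3 := by push_cast; ring
      rw [e, c3]
      norm_num
    · rw [h1, if_neg h2]
      have e : 2 * Real.pi * ((-1 : ℤ) : ℝ) / ((6 : ℕ) : ℝ) = -(Real.pi / 3) := by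
        push_cast; ring
      rw [e, Real.cos_neg, c3]
      norm_num
    · rw [h1, if_neg h2]
      have e : 2 * Real.pi * ((2 : ℤ) : ℝ) / ((6 : ℕ) : ℝ) = 2 * Real.pi / 3 := by push_cast; ring
      rw [e, c23]
      norm_num
    · rw [h1, if_neg h2]
      have e : 2 * Real.pi * ((-2 : ℤ) : ℝ) / ((6 : ℕ) : ℝ) = -(2 * Real.pi / 3) := by
        push_cast; ring
      rw [e, Real.cos_neg, c23]
      norm_num
    · rw [h1, if_neg h2]
      have e : 2 * Real.pi * ((3 : ℤ) : ℝ) / ((6 : ℕ) : ℝ) = Real.pi := by push_cast; ring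
      rw [e, Real.cos_pi]
      norm_num) c T w hc hw hT
  linarith

/-- the Fourier inequality bounds the coefficient from below -/
theorem fou_low (b n F R ρ : ℝ) (hb : 0 < b) (hn : b < n)
    (hfou : n * (F + 3 * b ^ 2) ≤ 4 * b ^ 3 + 4 * R * (n * b - b ^ 2)) (hR : R < ρ * b) :
    n * F < b ^ 2 * (4 * (1 - ρ) * b - (3 - 4 * ρ) * n) := by
  have h1 : 0 < n * b - b ^ 2 := by nlinarith
  have h2 := mul_lt_mul_of_pos_right hR h1
  nlinarith

/-- `F ≥ 0` and `20 b ≤ 9 n` -/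
theorem fou_nonneg (b n F R : ℝ) (hb : 0 < b) (hn : b < n) (hβ : 20 * b ≤ 9 * n)
    (hfou : n * (F + 3 * b ^ 2) ≤ 4 * b ^ 3 + 4 * R * (n * b - b ^ 2)) (hF : 0 ≤ F) :
    6 / 11 * b ≤ R := by
  by_contra hh
  push Not at hh
  have h1 := fou_low b n F R (6 / 11) hb hn hfou hh
  have h2 : 0 ≤ n * F := mul_nonneg (by linarith) hF
  have h3 : b ^ 2 * (4 * (1 - 6 / 11) * b - (3 - 4 * (6 / 11)) * n) ≤ 0 :=
    mul_nonpos_of_nonneg_of_nonpos (by positivity) (by linarith)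
  linarith

/-- `15 b < 4 n` and `3 F > - b²` -/
theorem fou_third (b n F R : ℝ) (hb : 0 < b) (hn : b < n) (hβ : 15 * b ≤ 4 * n)
    (hfou : n * (F + 3 * b ^ 2) ≤ 4 * b ^ 3 + 4 * R * (n * b - b ^ 2)) (hF : -b ^ 2 ≤ 3 * F) :
    6 / 11 * b ≤ R := by
  by_contra hh
  push Not at hh
  have h1 := fou_low b n F R (6 / 11) hb hn hfou hh
  have h2 : n * (-b ^ 2) ≤ n * (3 * F) := mul_le_mul_of_nonneg_left hF (by linarith)
  have h3 : b ^ 2 * (4 * (1 - 6 / 11) * b - (3 - 4 * (6 / 11)) * n) ≤ b ^ 2 * (-n / 3) := by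
    apply mul_le_mul_of_nonneg_left _ (by positivity)
    linarith
  nlinarith

/-- `m = 6` between `4 / 15` and `1 / 3` -/
theorem fou_six (b n F R : ℝ) (hb : 0 < b) (hβ1 : 4 * n ≤ 15 * b) (hβ2 : 3 * b ≤ n)
    (hfou : n * (F + 3 * b ^ 2) ≤ 4 * b ^ 3 + 4 * R * (n * b - b ^ 2))
    (hF : -4 * n ^ 2 ≤ 180 * F) : 6 / 11 * b ≤ R := by
  by_contra hh
  push Not at hh
  have hn0 : 0 < n := by linarith
  have h1 := fou_low b n F R (6 / 11) hb (by linarith) hfou hh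
  have h2 : n * (-4 * n ^ 2) ≤ n * (180 * F) := mul_le_mul_of_nonneg_left hF hn0.le
  -- -n³/45 < b² (20 b - 9 n)/11
  have h4 : 11 * (-4 * n ^ 3) < 180 * (b ^ 2 * (20 * b - 9 * n)) := by nlinarith
  -- b² (20 b - 9 n) ≤ ...
  have h5 : b ^ 2 * (20 * b - 9 * n) ≤ - (259 / 1000) * n ^ 3 := by
    obtain ⟨u, hu⟩ : ∃ u, u = 15 * b - 4 * n := ⟨_, rfl⟩
    obtain ⟨v, hv⟩ : ∃ v, v = n - 3 * b := ⟨_, rfl⟩
    have hu0 : 0 ≤ u := by linarith
    have hv0 : 0 ≤ v := by linarith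
    -- u + 5 v = n, b = (u + 4 n)/15
    have hn' : n = u + 5 * v := by linarith
    have hb' : b = (u + 4 * (u + 5 * v)) / 15 := by rw [← hn']; linarith
    rw [hb', hn']
    have q1 : 0 ≤ u * u * u := by positivity
    have q2 : 0 ≤ u * u * v := by positivity
    have q3 : 0 ≤ u * v * v := by positivity
    have q4 : 0 ≤ v * v * v := by positivity
    nlinarith
  have h6 : 0 < n ^ 3 := by positivity
  nlinarith

/-- `m = 5` -/
theorem fou_five (b n F R : ℝ) (hb : 0 < b) (hn : b < n) (hβ : 20 * b ≤ 9 * n)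
    (hfou : n * (F + 3 * b ^ 2) ≤ 4 * b ^ 3 + 4 * R * (n * b - b ^ 2))
    (hF1 : -4 * n ^ 2 ≤ 125 * F) (hF2 : -b ^ 2 ≤ 3 * F) : 473 / 1000 * b ≤ R := by
  by_contra hh
  push Not at hh
  have hn0 : 0 < n := by linarith
  have h1 := fou_low b n F R (473 / 1000) hb hn hfou hh
  rcases le_or_gt (100 * b) (36 * n) with h3 | h3
  · have h2 : n * (-b ^ 2) ≤ n * (3 * F) := mul_le_mul_of_nonneg_left hF2 hn0.le
    have h4 : b ^ 2 * (4 * (1 - 473 / 1000) * b - (3 - 4 * (473 / 1000)) * n) ≤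
        b ^ 2 * (-n / 3) := by
      apply mul_le_mul_of_nonneg_left _ (by positivity)
      linarith
    nlinarith
  · have h2 : n * (-4 * n ^ 2) ≤ n * (125 * F) := mul_le_mul_of_nonneg_left hF1 hn0.le
    have h4 : -4 * n ^ 3 < 125 * (b ^ 2 * (2108 / 1000 * b - 1108 / 1000 * n)) := by nlinarith
    have h5 : b ^ 2 * (2108 / 1000 * b - 1108 / 1000 * n) ≤ - (32 / 1000) * n ^ 3 := by
      obtain ⟨u, hu⟩ : ∃ u, u = 100 * b - 36 * n := ⟨_, rfl⟩
      obtain ⟨v, hv⟩ : ∃ v, v = 9 * n - 20 * b := ⟨_, rfl⟩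
      have hu0 : 0 ≤ u := by linarith
      have hv0 : 0 ≤ v := by linarith
      -- u + 5 v = 9 n
      have hn' : n = (u + 5 * v) / 9 := by linarith
      have hb' : b = (u + 36 * ((u + 5 * v) / 9)) / 100 := by rw [← hn']; linarith
      rw [hb', hn']
      have q1 : 0 ≤ u * u * u := by positivity
      have q2 : 0 ≤ u * u * v := by positivity
      have q3 : 0 ≤ u * v * v := by positivity
      have q4 : 0 ≤ v * v * v := by positivity
      nlinarith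
    have h6 : 0 < n ^ 3 := by positivity
    nlinarith

end Pool.Agent.SM
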