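import Mathlib
import Pool.Agent.Lib_helper59.KE2.KY

/-!
# Small even order of the largest character: a witness of type I
-/

set_option autoImplicit false

namespace Pool.Agent.SM

open Finset Pool.Agent.GL

/-- the witness of type I in the kernel of the character of order two -/
theorem wit_even {G : Type*} [AddCommGroup G] [Fintype G] [DecidableEq G] {m : ℕ} [NeZero m]
    (φ : G →+ ZMod m) (hφ : Function.Surjective φ) (h2 : 2 ∣ m) (hm : (2 : ZMod m) ≠ 0) {b : ℕ}
    (hb : 2 * b ≤ Nat.card G) (hb2 : m * Nat.card G ≤ 2 * m * b + 2 * Nat.card G) :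
    ∃ v, W G b v ∧ 0 ≤ v := by
  classical
  obtain ⟨ψ, hψ⟩ : ∃ ψ : G →+ ZMod 2, ψ = ((ZMod.castHom h2 (ZMod 2)).toAddMonoidHom).comp φ :=
    ⟨_, rfl⟩
  have hψx : ∀ x, ψ x = ZMod.castHom h2 (ZMod 2) (φ x) := fun x => by rw [hψ]; rfl
  have hsurj : Function.Surjective ψ := by
    intro y
    obtain ⟨z, hz⟩ := ZMod.castHom_surjective h2 y
    obtain ⟨x, hx⟩ := hφ z
    exact ⟨x, by rw [hψx, hx, hz]⟩
  have hK := (Pool.Agent.KE.ky_ker ψ hsurj).1
  have hL := (Pool.Agent.KE.ky_ker φ hφ).1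
  obtain ⟨g, hg⟩ := hφ 2
  set L : Finset G := univ.filter (fun x => φ x = 2) with hLdef
  have hLc : L.card = Nat.card φ.ker := by
    have h1 : (univ.filter (fun x => x ∈ φ.ker) : Finset G).card = Nat.card φ.ker := by
      rw [Nat.card_eq_fintype_card, Fintype.card_subtype]
    rw [← h1]
    refine card_bij' (fun x _ => x - g) (fun x _ => x + g) ?_ ?_ ?_ ?_
    · intro x hx
      simp only [hLdef, mem_filter, mem_univ, true_and] at hx
      simp only [mem_filter, mem_univ, true_and, AddMonoidHom.mem_ker, map_sub, hx, hg, sub_self]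
    · intro x hx
      simp only [mem_filter, mem_univ, true_and, AddMonoidHom.mem_ker] at hx
      simp only [hLdef, mem_filter, mem_univ, true_and, map_add, hx, hg, zero_add]
    · intro x _; simp
    · intro x _; simp
  have hbK : b ≤ Nat.card ψ.ker := by omega
  have hle : Nat.card ψ.ker - b ≤ L.card := by
    rw [hLc]
    have hm0 : 0 < m := Nat.pos_of_ne_zero (NeZero.ne m)
    rw [Nat.sub_le_iff_le_add]
    -- 2 |K| = n, m |L| = n
    have h3 : m * (2 * Nat.card ψ.ker) ≤ 2 * m * b + 2 * (m * Nat.card φ.ker) := by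
      rw [← hK, ← hL]; exact hb2
    have h4 : (2 * m) * Nat.card ψ.ker ≤ (2 * m) * (Nat.card φ.ker + b) := by
      calc (2 * m) * Nat.card ψ.ker = m * (2 * Nat.card ψ.ker) := by ring
        _ ≤ 2 * m * b + 2 * (m * Nat.card φ.ker) := h3
        _ = (2 * m) * (Nat.card φ.ker + b) := by ring
    exact Nat.le_of_mul_le_mul_left h4 (by omega)
  obtain ⟨S, hSL, hSc⟩ := exists_subset_card_eq hle
  have hS2 : ∀ x ∈ S, φ x = 2 := fun x hx => (mem_filter.1 (hSL hx)).2
  refine ⟨_, Or.inl ⟨ψ.ker, S, ?_, ?_, by omega, rfl⟩, sq_nonneg _⟩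
  · intro x hx
    rw [AddMonoidHom.mem_ker, hψx, hS2 x hx]
    rw [map_ofNat]
    decide
  · intro x hx y hy hxy
    have h1 := hS2 _ hxy
    rw [map_add, hS2 x hx, hS2 y hy] at h1
    exact hm (by simpa using h1)

end Pool.Agent.SM
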