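import Mathlib
import Pool.Agent.Lib_helper28.SM.Core
import Pool.Agent.Lib_helper28.SM.Re
import Pool.Agent.Lib_helper28.SM.Wit
import Pool.Agent.Lib_helper28.SM.Num
import Pool.Agent.Lib_helper26.SCH.Skel

/-!
# Small order of the largest character (`m = 4, 5, 6`), `20 b ≤ 9 n`
-/

set_option autoImplicit false

namespace Pool.Agent.SM

open Finset Pool.Agent.Lib_helper13.PL Pool.Agent.POS Pool.Agent.ST Pool.Agent.GL
  Pool.Agent.NEG Pool.Agent.KE

section
universe u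
variable {G : Type u} [AddCommGroup G] [Fintype G] [DecidableEq G]

/-- the values of witnesses are below `F` -/
theorem low_third {B : Finset G} (hbn : B.card < Nat.card G) (hBd : ¬ Bd G B.card (GL.FF B)) :
    -((B.card : ℝ)) ^ 2 ≤ 3 * ((GL.FF B : ℤ) : ℝ) := by
  have h : -((B.card : ℤ)) ^ 2 ≤ 3 * GL.FF B := by
    by_contra hh
    exact hBd (bd_third hbn (not_le.1 hh).le)
  exact_mod_cast h

theorem low_nonneg {B : Finset G} (hBd : ¬ Bd G B.card (GL.FF B))
    (h : ∃ v, W G B.card v ∧ 0 ≤ v) : (0 : ℝ) ≤ ((GL.FF B : ℤ) : ℝ) := by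
  have h : 0 ≤ GL.FF B := by
    by_contra hh
    exact hBd (bd_of h (not_le.1 hh).le)
  exact_mod_cast h

theorem low_m {m : ℕ} [NeZero m] (chi : G →+ ZMod m) (hchi : Function.Surjective chi)
    {B : Finset G} (hβ : 3 * B.card < 2 * Nat.card G) (hBd : ¬ Bd G B.card (GL.FF B)) :
    -4 * (Nat.card G : ℝ) ^ 2 ≤ 5 * (m : ℝ) ^ 2 * ((GL.FF B : ℤ) : ℝ) := by
  obtain ⟨v, hv, hv'⟩ := ky_wit chi hchi hβ
  have h1 : v < GL.FF B := by
    by_contra hh
    exact hBd ⟨v, hv, not_lt.1 hh⟩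
  have h2 : -4 * (Nat.card G : ℤ) ^ 2 ≤ 5 * (m : ℤ) ^ 2 * GL.FF B := by
    have h3 : (0 : ℤ) ≤ 5 * (m : ℤ) ^ 2 := by positivity
    have h4 := mul_le_mul_of_nonneg_left h1.le h3
    linarith
  exact_mod_cast h2

theorem ff_le_sq (A : Finset G) : GL.FF A ≤ (A.card : ℤ) ^ 2 := by
  unfold GL.FF GL.sch
  have h1 : ((A ×ˢ A).filter (fun p => p.1 + p.2 ∈ A)).card ≤ A.card * A.card := by
    rw [← card_product]; exact card_filter_le _ _
  have h2 : (((A ×ˢ A).filter (fun p => p.1 + p.2 ∈ A)).card : ℤ) ≤ (A.card : ℤ) * A.card := by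
    exact_mod_cast h1
  nlinarith

/-- `m = 4` -/
theorem main4 {B : Finset G} {χ : AddChar G ℂ} {φ : G →+ ZMod 4}
    (hφ : Function.Surjective φ) (hstd : Std χ φ)
    (IH : ∀ M : AddSubgroup G, M ≠ ⊤ → ∀ B' : Finset M, GL.Bd M B'.card (GL.FF B'))
    (hb0 : 0 < B.card)
    (hfou : (Nat.card G : ℝ) * (((GL.FF B : ℤ) : ℝ) + 3 * (B.card : ℝ) ^ 2) ≤
      4 * (B.card : ℝ) ^ 3 + 4 * (hat B χ).re * ((Nat.card G : ℝ) * B.card - (B.card : ℝ) ^ 2))
    (hglue : 7 * (lev φ B 0).card ≤ 4 * B.card) (hβ : 20 * B.card ≤ 9 * Nat.card G) :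
    Bd G B.card (GL.FF B) := by
  by_contra hBd
  have hbn : B.card < Nat.card G := by omega
  obtain ⟨c, hc⟩ : ∃ c : ℤ, c = (lev φ B 0).card := ⟨_, rfl⟩
  obtain ⟨w, hw⟩ : ∃ w : ℤ, w = (outr φ B).card := ⟨_, rfl⟩
  obtain ⟨b, hb⟩ : ∃ b : ℤ, b = B.card := ⟨_, rfl⟩
  obtain ⟨T, hT⟩ : ∃ T : ℤ, T = b - c - w := ⟨_, rfl⟩
  have hl := lev_inn_zero (by norm_num) φ B
  have hN := inn_noWrap φ B
  have hb' : ((inn φ B).card : ℤ) = b - w := by
    have h5 : ((inn φ B).card : ℤ) + (outr φ B).card = B.card := by exact_mod_cast inn_card φ B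
    linarith
  have hbT : (B.card : ℤ) = c + T + w := by linarith
  have hbT' : ((inn φ B).card : ℤ) = c + T := by linarith
  have hw0 : 0 ≤ w := by rw [hw]; exact Int.natCast_nonneg _
  have hc0 : 0 ≤ c := by rw [hc]; exact Int.natCast_nonneg _
  have hbpos : 0 < b := by rw [hb]; exact_mod_cast hb0
  -- the coefficient
  have hR := re4 hstd B (c : ℝ) (T : ℝ) (w : ℝ) (by rw [hc, Int.cast_natCast])
    (by rw [hw, Int.cast_natCast])
    (by exact_mod_cast hbT)
  have hbR : (0 : ℝ) < (B.card : ℝ) := by exact_mod_cast hb0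
  have hbnR : (B.card : ℝ) < (Nat.card G : ℝ) := by exact_mod_cast hbn
  have hβR : 20 * (B.card : ℝ) ≤ 9 * (Nat.card G : ℝ) := by exact_mod_cast hβ
  have hlow : 6 / 11 * (B.card : ℝ) ≤ (hat B χ).re := by
    rcases le_or_gt (4 * B.card) (Nat.card G) with h4 | h4
    · have h4' : 4 * (B.card : ℝ) ≤ (Nat.card G : ℝ) := by exact_mod_cast h4
      exact fou_third _ _ _ _ hbR hbnR (by linarith) hfou (low_third hbn hBd)
    · exact fou_nonneg _ _ _ _ hbR hbnR hβR hfou (low_nonneg hBd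
        (wit_even φ hφ (by norm_num) (by decide) (by omega) (by omega)))
  have hcl : 6 * b + 11 * w ≤ 11 * c := by
    have h1 : 6 / 11 * (B.card : ℝ) ≤ (c : ℝ) - w := hlow.trans hR
    have h2 : 6 * ((b : ℤ) : ℝ) + 11 * (w : ℝ) ≤ 11 * (c : ℝ) := by
      rw [hb]
      push_cast
      linarith
    exact_mod_cast h2
  have hF := rem4 φ B c T w hc hw hbT
  have hrem := n4_rem b c T w (GL.FF B) (GL.FF (inn φ B)) hbpos.le hw0 (by linarith) hcl hF
  have hgl : 7 * c ≤ 4 * b := by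
    rw [hc, hb]; exact_mod_cast hglue
  have hbe : (b : ℤ) = B.card := hb
  have hF_R : ((GL.FF B : ℤ) : ℝ) ≤ ((GL.FF (inn φ B) : ℤ) : ℝ) +
      6 * (w : ℝ) * ((T : ℝ) - c) + 9 * (w : ℝ) ^ 2 := by exact_mod_cast hF
  have hbTR : ((b : ℤ) : ℝ) = (c : ℝ) + T + w := by
    have : b = c + T + w := by linarith
    exact_mod_cast this
  have hclR : 6 * (b : ℝ) + 11 * w ≤ 11 * c := by exact_mod_cast hcl
  have hb0R : (0 : ℝ) ≤ (b : ℝ) := by exact_mod_cast hbpos.le
  have hw0R : (0 : ℝ) ≤ (w : ℝ) := by exact_mod_cast hw0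
  apply hBd
  by_cases h74 : 7 * (lev φ (inn φ B) 0).card ≤ 4 * (inn φ B).card
  · refine case_a (by norm_num) (by norm_num) φ hφ IH B w hw hb0 h74 hrem (by omega) ?_ ?_
    · intro K' hK'
      left
      rw [hl]
      have h1 : 4 * (K' : ℤ) ≤ 3 * c := by
        have h2 : 6 * (4 * (K' : ℤ)) < 5 * b := by rw [hb]; exact_mod_cast hK'
        linarith
      rw [hc] at h1
      exact_mod_cast h1
    · intro x K' hK0 hx hx2 h
      rw [← hb]
      rw [hb'] at h
      rw [← hb] at hx2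
      have hx' : 4 * (K' : ℝ) ≤ (x : ℝ) := by exact_mod_cast hx
      have hx2' : 6 * (x : ℝ) < 5 * (b : ℝ) := by exact_mod_cast hx2
      have hK' : (0 : ℝ) ≤ (K' : ℝ) := by exact_mod_cast hK0
      have key := n4_nb (b : ℝ) c T w ((GL.FF B : ℤ) : ℝ) ((GL.FF (inn φ B) : ℤ) : ℝ) x K' hb0R
        hw0R hbTR hclR hF_R hK' hx' hx2' (by
          rcases h with h | h
          · left; exact_mod_cast h
          · right; exact_mod_cast h)
      rcases key with h1 | ⟨h1, h2⟩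
      · left; exact_mod_cast h1
      · right; exact ⟨by exact_mod_cast h1, by exact_mod_cast h2⟩
  · have hgap : 4 * T ≤ 3 * c := by
      have h1 : 4 * ((inn φ B).card : ℤ) ≤ 7 * (lev φ (inn φ B) 0).card := by
        push Not at h74
        exact_mod_cast h74.le
      rw [hl, ← hc, hbT'] at h1
      linarith
    refine case_b (by norm_num) φ hφ IH B w hw hb0 (by rw [hl]; exact hglue) ?_ hrem (by omega)
      ?_ ?_
    · rw [hl]
      have h1 : 5 * b ≤ 12 * c := by linarith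
      rw [hb, hc] at h1
      exact_mod_cast h1
    · intro h0
      rw [hl, ← hc] at h0
      have hF' := peel_T sml4 φ _ hN c T (by rw [hl]; exact hc) hbT'
      rw [hl] at hF'
      have key := n4_gap (b : ℝ) c T w ((GL.FF B : ℤ) : ℝ) ((GL.FF (inn φ B) : ℤ) : ℝ)
        ((GL.FF (lev φ B 0) : ℤ) : ℝ) hb0R hw0R hbTR hclR hF_R (by exact_mod_cast hF')
        (by exact_mod_cast h0) (by exact_mod_cast hgap) (by exact_mod_cast hgl)
      rw [← hb]
      exact_mod_cast key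
    · intro h0
      exfalso
      rw [hl, ← hc, hbT'] at h0
      linarith

/-- `m = 5` -/
theorem main5 {B : Finset G} {χ : AddChar G ℂ} {φ : G →+ ZMod 5}
    (hφ : Function.Surjective φ) (hstd : Std χ φ)
    (IH : ∀ M : AddSubgroup G, M ≠ ⊤ → ∀ B' : Finset M, GL.Bd M B'.card (GL.FF B'))
    (hb0 : 0 < B.card)
    (hfou : (Nat.card G : ℝ) * (((GL.FF B : ℤ) : ℝ) + 3 * (B.card : ℝ) ^ 2) ≤
      4 * (B.card : ℝ) ^ 3 + 4 * (hat B χ).re * ((Nat.card G : ℝ) * B.card - (B.card : ℝ) ^ 2))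
    (hglue : 7 * (lev φ B 0).card ≤ 4 * B.card) (hβ : 20 * B.card ≤ 9 * Nat.card G) :
    Bd G B.card (GL.FF B) := by
  by_contra hBd
  have hbn : B.card < Nat.card G := by omega
  obtain ⟨c, hc⟩ : ∃ c : ℤ, c = (lev φ B 0).card := ⟨_, rfl⟩
  obtain ⟨w, hw⟩ : ∃ w : ℤ, w = (outr φ B).card := ⟨_, rfl⟩
  obtain ⟨b, hb⟩ : ∃ b : ℤ, b = B.card := ⟨_, rfl⟩
  obtain ⟨T, hT⟩ : ∃ T : ℤ, T = b - c - w := ⟨_, rfl⟩
  have hl := lev_inn_zero (by norm_num) φ B
  have hN := inn_noWrap φ B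
  have hb' : ((inn φ B).card : ℤ) = b - w := by
    have h5 : ((inn φ B).card : ℤ) + (outr φ B).card = B.card := by exact_mod_cast inn_card φ B
    linarith
  have hbT : (B.card : ℤ) = c + T + w := by linarith
  have hbT' : ((inn φ B).card : ℤ) = c + T := by linarith
  have hw0 : 0 ≤ w := by rw [hw]; exact Int.natCast_nonneg _
  have hc0 : 0 ≤ c := by rw [hc]; exact Int.natCast_nonneg _
  have hbpos : 0 < b := by rw [hb]; exact_mod_cast hb0
  have hT0 : 0 ≤ T := by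
    have h1 : (lev φ (inn φ B) 0).card ≤ (inn φ B).card := card_filter_le _ _
    have h2 : ((lev φ (inn φ B) 0).card : ℤ) ≤ (inn φ B).card := by exact_mod_cast h1
    rw [hl, ← hc, hbT'] at h2
    linarith
  have hR := re5 hstd B (c : ℝ) (T : ℝ) (w : ℝ) (by rw [hc, Int.cast_natCast])
    (by rw [hw, Int.cast_natCast])
    (by exact_mod_cast hbT)
  have hbR : (0 : ℝ) < (B.card : ℝ) := by exact_mod_cast hb0
  have hbnR : (B.card : ℝ) < (Nat.card G : ℝ) := by exact_mod_cast hbn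
  have hβR : 20 * (B.card : ℝ) ≤ 9 * (Nat.card G : ℝ) := by exact_mod_cast hβ
  have hlow : 473 / 1000 * (B.card : ℝ) ≤ (hat B χ).re := by
    have h1 := low_m φ hφ (B := B) (by omega) hBd
    refine fou_five _ _ _ _ hbR hbnR hβR hfou ?_ (low_third hbn hBd)
    push_cast at h1
    linarith
  have hcl : 1639 * b + 11181 * w ≤ 6909 * c := by
    have h1 := hlow.trans hR
    have h2 : 1639 * ((b : ℤ) : ℝ) + 11181 * (w : ℝ) ≤ 6909 * (c : ℝ) := by
      have h3 : (T : ℝ) = (b : ℝ) - c - w := by exact_mod_cast hT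
      rw [h3, hb] at h1
      rw [hb]
      push_cast at h1 ⊢
      linarith
    exact_mod_cast h2
  have hF := rem5 φ B c T w hc hw hbT
  have hrem := n5_rem b c T w (GL.FF B) (GL.FF (inn φ B)) hbpos.le hw0 (by linarith) hT0 hcl hF
  have hgl : 7 * c ≤ 4 * b := by
    rw [hc, hb]; exact_mod_cast hglue
  have hF_R : ((GL.FF B : ℤ) : ℝ) ≤ ((GL.FF (inn φ B) : ℤ) : ℝ) -
      6 * (c : ℝ) * w + 9 * (w : ℝ) ^ 2 := by exact_mod_cast hF
  have hbTR : ((b : ℤ) : ℝ) = (c : ℝ) + T + w := by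
    have : b = c + T + w := by linarith
    exact_mod_cast this
  have hclR : 1639 * (b : ℝ) + 11181 * w ≤ 6909 * c := by exact_mod_cast hcl
  have hb0R : (0 : ℝ) ≤ (b : ℝ) := by exact_mod_cast hbpos.le
  have hw0R : (0 : ℝ) ≤ (w : ℝ) := by exact_mod_cast hw0
  have hT0R : (0 : ℝ) ≤ (T : ℝ) := by exact_mod_cast hT0
  apply hBd
  by_cases h74 : 7 * (lev φ (inn φ B) 0).card ≤ 4 * (inn φ B).card
  · refine case_a (by norm_num) (by norm_num) φ hφ IH B w hw hb0 h74 hrem (by omega) ?_ ?_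
    · intro K' hK'
      left
      rw [hl]
      have h1 : 4 * (K' : ℤ) ≤ 3 * c := by
        have h2 : 6 * (5 * (K' : ℤ)) < 5 * b := by rw [hb]; exact_mod_cast hK'
        linarith
      rw [hc] at h1
      exact_mod_cast h1
    · intro x K' hK0 hx hx2 h
      rw [← hb]
      rw [hb'] at h
      rw [← hb] at hx2
      have hx' : 5 * (K' : ℝ) ≤ (x : ℝ) := by exact_mod_cast hx
      have hx2' : 6 * (x : ℝ) < 5 * (b : ℝ) := by exact_mod_cast hx2
      have hK' : (0 : ℝ) ≤ (K' : ℝ) := by exact_mod_cast hK0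
      have key := n5_nb (b : ℝ) c T w ((GL.FF B : ℤ) : ℝ) ((GL.FF (inn φ B) : ℤ) : ℝ) x K' hb0R
        hw0R hbTR hT0R hclR hF_R hK' hx' hx2' (by
          rcases h with h | h
          · left; exact_mod_cast h
          · right; exact_mod_cast h)
      left; exact_mod_cast key
  · have hgap : 4 * T ≤ 3 * c := by
      have h1 : 4 * ((inn φ B).card : ℤ) ≤ 7 * (lev φ (inn φ B) 0).card := by
        push Not at h74
        exact_mod_cast h74.le
      rw [hl, ← hc, hbT'] at h1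
      linarith
    refine case_b (by norm_num) φ hφ IH B w hw hb0 (by rw [hl]; exact hglue) ?_ hrem (by omega)
      ?_ ?_
    · rw [hl]
      have h1 : 5 * b ≤ 12 * c := by linarith
      rw [hb, hc] at h1
      exact_mod_cast h1
    · intro h0
      rw [hl, ← hc] at h0
      have hF' := peel_T sml5 φ _ hN c T (by rw [hl]; exact hc) hbT'
      rw [hl] at hF'
      have key := n5_gap (b : ℝ) c T w ((GL.FF B : ℤ) : ℝ) ((GL.FF (inn φ B) : ℤ) : ℝ)
        ((GL.FF (lev φ B 0) : ℤ) : ℝ) hb0R hw0R hbTR hT0R hclR hF_R (by exact_mod_cast hF')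
        (by exact_mod_cast h0) (by exact_mod_cast hgap) (by exact_mod_cast hgl)
      rw [← hb]
      exact_mod_cast key
    · intro h0
      exfalso
      rw [hl, ← hc, hbT'] at h0
      linarith

/-- `m = 6` -/
theorem main6 {B : Finset G} {χ : AddChar G ℂ} {φ : G →+ ZMod 6}
    (hφ : Function.Surjective φ) (hstd : Std χ φ)
    (IH : ∀ M : AddSubgroup G, M ≠ ⊤ → ∀ B' : Finset M, GL.Bd M B'.card (GL.FF B'))
    (hb0 : 0 < B.card)
    (hfou : (Nat.card G : ℝ) * (((GL.FF B : ℤ) : ℝ) + 3 * (B.card : ℝ) ^ 2) ≤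
      4 * (B.card : ℝ) ^ 3 + 4 * (hat B χ).re * ((Nat.card G : ℝ) * B.card - (B.card : ℝ) ^ 2))
    (hglue : 7 * (lev φ B 0).card ≤ 4 * B.card) (hβ : 20 * B.card ≤ 9 * Nat.card G) :
    Bd G B.card (GL.FF B) := by
  by_contra hBd
  have hbn : B.card < Nat.card G := by omega
  obtain ⟨c, hc⟩ : ∃ c : ℤ, c = (lev φ B 0).card := ⟨_, rfl⟩
  obtain ⟨w, hw⟩ : ∃ w : ℤ, w = (outr φ B).card := ⟨_, rfl⟩
  obtain ⟨b, hb⟩ : ∃ b : ℤ, b = B.card := ⟨_, rfl⟩
  obtain ⟨T, hT⟩ : ∃ T : ℤ, T = b - c - w := ⟨_, rfl⟩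
  have hl := lev_inn_zero (by norm_num) φ B
  have hN := inn_noWrap φ B
  have hb' : ((inn φ B).card : ℤ) = b - w := by
    have h5 : ((inn φ B).card : ℤ) + (outr φ B).card = B.card := by exact_mod_cast inn_card φ B
    linarith
  have hbT : (B.card : ℤ) = c + T + w := by linarith
  have hbT' : ((inn φ B).card : ℤ) = c + T := by linarith
  have hw0 : 0 ≤ w := by rw [hw]; exact Int.natCast_nonneg _
  have hc0 : 0 ≤ c := by rw [hc]; exact Int.natCast_nonneg _
  have hbpos : 0 < b := by rw [hb]; exact_mod_cast hb0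
  have hT0 : 0 ≤ T := by
    have h1 : (lev φ (inn φ B) 0).card ≤ (inn φ B).card := card_filter_le _ _
    have h2 : ((lev φ (inn φ B) 0).card : ℤ) ≤ (inn φ B).card := by exact_mod_cast h1
    rw [hl, ← hc, hbT'] at h2
    linarith
  have hR := re6 hstd B (c : ℝ) (T : ℝ) (w : ℝ) (by rw [hc, Int.cast_natCast])
    (by rw [hw, Int.cast_natCast])
    (by exact_mod_cast hbT)
  have hbR : (0 : ℝ) < (B.card : ℝ) := by exact_mod_cast hb0
  have hbnR : (B.card : ℝ) < (Nat.card G : ℝ) := by exact_mod_cast hbn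
  have hβR : 20 * (B.card : ℝ) ≤ 9 * (Nat.card G : ℝ) := by exact_mod_cast hβ
  have hlow : 6 / 11 * (B.card : ℝ) ≤ (hat B χ).re := by
    rcases le_or_gt (15 * B.card) (4 * Nat.card G) with h4 | h4
    · have h4' : 15 * (B.card : ℝ) ≤ 4 * (Nat.card G : ℝ) := by exact_mod_cast h4
      exact fou_third _ _ _ _ hbR hbnR h4' hfou (low_third hbn hBd)
    rcases le_or_gt (3 * B.card) (Nat.card G) with h5 | h5
    · have h4' : 4 * (Nat.card G : ℝ) ≤ 15 * (B.card : ℝ) := by exact_mod_cast h4.le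
      have h5' : 3 * (B.card : ℝ) ≤ (Nat.card G : ℝ) := by exact_mod_cast h5
      refine fou_six _ _ _ _ hbR h4' h5' hfou ?_
      have h1 := low_m φ hφ (B := B) (by omega) hBd
      push_cast at h1
      linarith
    · exact fou_nonneg _ _ _ _ hbR hbnR hβR hfou (low_nonneg hBd
        (wit_even φ hφ (by norm_num) (by decide) (by omega) (by omega)))
  have hcl : b + 22 * w ≤ 11 * c := by
    have h1 := hlow.trans hR
    have h2 : ((b : ℤ) : ℝ) + 22 * (w : ℝ) ≤ 11 * (c : ℝ) := by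
      have h3 : (T : ℝ) = (b : ℝ) - c - w := by exact_mod_cast hT
      rw [h3, hb] at h1
      rw [hb]
      push_cast at h1 ⊢
      linarith
    exact_mod_cast h2
  have hF := rem6 φ B c T w hc hw hbT
  have hrem := n6_rem b c w (GL.FF B) (GL.FF (inn φ B)) hbpos.le hw0 hcl hF
  have hgl : 7 * c ≤ 4 * b := by
    rw [hc, hb]; exact_mod_cast hglue
  have hF_R : ((GL.FF B : ℤ) : ℝ) ≤ ((GL.FF (inn φ B) : ℤ) : ℝ) -
      6 * (c : ℝ) * w + 9 * (w : ℝ) ^ 2 := by exact_mod_cast hF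
  have hbTR : ((b : ℤ) : ℝ) = (c : ℝ) + T + w := by
    have : b = c + T + w := by linarith
    exact_mod_cast this
  have hclR : (b : ℝ) + 22 * w ≤ 11 * c := by exact_mod_cast hcl
  have hb0R : (0 : ℝ) ≤ (b : ℝ) := by exact_mod_cast hbpos.le
  have hw0R : (0 : ℝ) ≤ (w : ℝ) := by exact_mod_cast hw0
  have hT0R : (0 : ℝ) ≤ (T : ℝ) := by exact_mod_cast hT0
  apply hBd
  by_cases h74 : 7 * (lev φ (inn φ B) 0).card ≤ 4 * (inn φ B).card
  · refine case_a (by norm_num) (by norm_num) φ hφ IH B w hw hb0 h74 hrem (by omega) ?_ ?_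
    · intro K' hK'
      right
      have h1 : 48 * (K' : ℤ) ≤ 10 * ((inn φ B).card : ℤ) := by
        have h2 : 6 * (6 * (K' : ℤ)) < 5 * b := by rw [hb]; exact_mod_cast hK'
        rw [hb']
        linarith
      exact_mod_cast h1
    · intro x K' hK0 hx hx2 h
      rw [← hb]
      rw [hb'] at h
      rw [← hb] at hx2
      have hx' : 6 * (K' : ℝ) ≤ (x : ℝ) := by exact_mod_cast hx
      have hx2' : 6 * (x : ℝ) < 5 * (b : ℝ) := by exact_mod_cast hx2
      have hK' : (0 : ℝ) ≤ (K' : ℝ) := by exact_mod_cast hK0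
      have key := n6_nb (b : ℝ) c w ((GL.FF B : ℤ) : ℝ) ((GL.FF (inn φ B) : ℤ) : ℝ) x K' hb0R
        hw0R hclR hF_R hK' hx' hx2' (by
          rcases h with h | h
          · left; exact_mod_cast h
          · right; exact_mod_cast h)
      left; exact_mod_cast key
  · have hgap : 4 * T ≤ 3 * c := by
      have h1 : 4 * ((inn φ B).card : ℤ) ≤ 7 * (lev φ (inn φ B) 0).card := by
        push Not at h74
        exact_mod_cast h74.le
      rw [hl, ← hc, hbT'] at h1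
      linarith
    have hF' := peel_T sml6 φ _ hN c T (by rw [hl]; exact hc) hbT'
    rw [hl] at hF'
    refine case_b (by norm_num) φ hφ IH B w hw hb0 (by rw [hl]; exact hglue) ?_ hrem (by omega)
      ?_ ?_
    · rw [hl]
      have h1 : 5 * b ≤ 12 * c := by linarith
      rw [hb, hc] at h1
      exact_mod_cast h1
    · intro h0
      rw [hl, ← hc] at h0
      have key := n6_gap (b : ℝ) c T w ((GL.FF B : ℤ) : ℝ) ((GL.FF (inn φ B) : ℤ) : ℝ)
        ((GL.FF (lev φ B 0) : ℤ) : ℝ) hb0R hw0R hbTR hT0R hclR hF_R (by exact_mod_cast hF')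
        (by exact_mod_cast h0) (by exact_mod_cast hgap) (by exact_mod_cast hgl)
      rw [← hb]
      exact_mod_cast key
    · intro h0
      rw [hl, ← hc, hbT'] at h0
      have h1 : 3 * T ≤ c := by linarith
      have h2 := ff_le_sq (lev φ B 0)
      rw [← hc] at h2
      have key := n6_few (b : ℝ) c T w ((GL.FF B : ℤ) : ℝ) ((GL.FF (inn φ B) : ℤ) : ℝ)
        ((GL.FF (lev φ B 0) : ℤ) : ℝ) hb0R hw0R hbTR hT0R hclR hF_R (by exact_mod_cast hF')
        (by exact_mod_cast h2) (by exact_mod_cast h1) (by exact_mod_cast hgl)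
      rw [← hb]
      exact_mod_cast key

/-- **`m = 4, 5, 6`** -/
theorem small_m {B : Finset G} {m : ℕ} {χ : AddChar G ℂ} {φ : G →+ ZMod m}
    (hm : 4 ≤ m) (hm6 : m ≤ 6)
    (hφ : Function.Surjective φ) (hstd : Std χ φ)
    (IH : ∀ M : AddSubgroup G, M ≠ ⊤ → ∀ B' : Finset M, GL.Bd M B'.card (GL.FF B'))
    (hb0 : 0 < B.card)
    (hfou : (Nat.card G : ℝ) * (((GL.FF B : ℤ) : ℝ) + 3 * (B.card : ℝ) ^ 2) ≤
      4 * (B.card : ℝ) ^ 3 + 4 * (hat B χ).re * ((Nat.card G : ℝ) * B.card - (B.card : ℝ) ^ 2))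
    (hglue : 7 * (B.filter (fun x => φ x = 0)).card ≤ 4 * B.card)
    (hβ : 20 * B.card ≤ 9 * Nat.card G) :
    Bd G B.card (GL.FF B) := by
  have h : m = 4 ∨ m = 5 ∨ m = 6 := by omega
  rcases h with h | h | h
  · subst h; exact main4 hφ hstd IH hb0 hfou hglue hβ
  · subst h; exact main5 hφ hstd IH hb0 hfou hglue hβ
  · subst h; exact main6 hφ hstd IH hb0 hfou hglue hβ

end

end Pool.Agent.SM
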