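import Mathlib
import Pool.Agent.Lib_helper28.SM.Main
import Pool.Agent.Lib_helper26.SCH.Step

/-!
# Small order of the largest character, in the situation of the case tree
-/

set_option autoImplicit false

namespace Pool.Agent.SM

open Finset Pool.Agent.Lib_helper13.PL Pool.Agent.GL Pool.Agent.SCH

universe u

/-- the induction hypothesis in the form used by the gluing theorem -/
theorem ih_form {G : Type u} [AddCommGroup G] [Fintype G] [DecidableEq G]
    (ih : ∀ M : AddSubgroup G, M ≠ ⊤ → Main M) :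
    ∀ M : AddSubgroup G, M ≠ ⊤ → ∀ B' : Finset M, GL.Bd M B'.card (GL.FF B') := by
  intro M hM B'
  classical
  have := ih M hM
  have h2 := this B'
  convert h2

/-- `m ≤ 6` in the case `20 b ≤ 9 n` -/
theorem small_ctx {G : Type u} [AddCommGroup G] [Fintype G] [DecidableEq G] {B : Finset G} {m : ℕ}
    {χ : AddChar G ℂ} {φ : G →+ ZMod m} (ctx : Ctx B χ φ) (hm6 : m ≤ 6)
    (hβ : 20 * B.card ≤ 9 * Fintype.card G) : False := by
  have hb0 : 0 < B.card := by
    obtain ⟨x, hx, _⟩ := ctx.wrap
    exact card_pos.2 ⟨x, hx⟩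
  have h1 : Bd G B.card (GL.FF B) := by
    refine small_m ctx.hm hm6 ctx.surj ctx.std (ih_form ctx.ih) hb0 ?_ ctx.glue.le ?_
    · rw [Nat.card_eq_fintype_card]; exact ctx.fou
    · rw [Nat.card_eq_fintype_card]; exact hβ
  rw [Bd_card_iff] at h1
  have := ctx.big
  linarith

end Pool.Agent.SM
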